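import Mathlib

open Matrix Finset Filter Topology
open scoped ComplexOrder

namespace Pool.Agent.H.MP_098da0_al

abbrev M (n m : ℕ) := Matrix (Fin n) (Fin m) ℂ

variable {n m k : ℕ}

noncomputable def nn (X : M n m) : ℝ := (trace (Xᴴ * X)).re

theorem nn_eq (X : M n m) : nn X = ∑ j, ∑ i, Complex.normSq (X i j) := by
  simp [nn, trace, mul_apply, Complex.normSq_apply]
theorem nn_nonneg (X : M n m) : 0 ≤ nn X := by
  rw [nn_eq]; exact sum_nonneg fun _ _ => sum_nonneg fun _ _ => Complex.normSq_nonneg _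
theorem nn_zero {X : M n m} (h : nn X ≤ 0) : X = 0 := by
  have := le_antisymm h (nn_nonneg X)
  rw [nn_eq, sum_eq_zero_iff_of_nonneg fun _ _ => sum_nonneg fun _ _ => Complex.normSq_nonneg _] at this
  ext i j
  exact Complex.normSq_eq_zero.1 ((sum_eq_zero_iff_of_nonneg fun _ _ => Complex.normSq_nonneg _).1 (this j (mem_univ _)) i
    (mem_univ _))
theorem nn_add (X Y : M n m) : nn (X + Y) ≤ 2 * nn X + 2 * nn Y := by
  simp only [nn_eq, mul_sum, ← sum_add_distrib]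
  refine sum_le_sum fun j _ => sum_le_sum fun i _ => ?_
  simp only [Matrix.add_apply, Complex.normSq_apply, Complex.add_re, Complex.add_im]
  nlinarith [sq_nonneg ((X i j).re - (Y i j).re), sq_nonneg ((X i j).im - (Y i j).im)]
theorem nn_smul (c : ℂ) (X : M n m) : nn (c • X) = Complex.normSq c * nn X := by simp [nn_eq, mul_sum]
theorem nn_neg (X : M n m) : nn (-X) = nn X := by simp [nn]
theorem nn_comm (X Y : M n m) : nn (X - Y) = nn (Y - X) := by rw [← nn_neg, neg_sub]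
theorem nn_tri (X Y Z : M n m) : nn (X - Z) ≤ 2 * nn (X - Y) + 2 * nn (Y - Z) := by
  have := nn_add (X - Y) (Y - Z); rwa [sub_add_sub_cancel] at this
theorem nn_H (X : M n m) : nn Xᴴ = nn X := by rw [nn, nn, conjTranspose_conjTranspose, trace_mul_comm]
theorem nn_l {W : M k n} (h : Wᴴ * W = 1) (X : M n m) : nn (W * X) = nn X := by
  rw [nn, nn, conjTranspose_mul, Matrix.mul_assoc, ← Matrix.mul_assoc Wᴴ, h, Matrix.one_mul]
theorem nn_proj {P : M m m} (h1 : Pᴴ = P) (h2 : P * P = P) (X : M n m) : nn (X * P) = (trace (Xᴴ * X * P)).re := by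
  rw [nn, conjTranspose_mul, h1, Matrix.mul_assoc, trace_mul_comm, Matrix.mul_assoc, Matrix.mul_assoc, h2, Matrix.mul_assoc]
theorem nn_r' (W : M m k) (X : M n m) : nn (X * W) = (trace (Xᴴ * X * (W * Wᴴ))).re := by
  rw [nn, conjTranspose_mul, Matrix.mul_assoc, trace_mul_comm]; simp only [Matrix.mul_assoc]
theorem nn_r {W : M m k} (h : Wᴴ * W = 1) (X : M n m) : nn (X * W) ≤ nn X := by
  have e : W * Wᴴ * (W * Wᴴ) = W * Wᴴ := by rw [Matrix.mul_assoc, ← Matrix.mul_assoc Wᴴ, h, Matrix.one_mul]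
  have := nn_nonneg (X * (1 - W * Wᴴ))
  rw [nn_proj (by simp) (by simp [mul_sub, sub_mul, e]), Matrix.mul_sub, trace_sub, Complex.sub_re, ← nn_r', Matrix.mul_one] at this
  exact sub_nonneg.1 this
theorem nn_iso {W : M n m} (h : Wᴴ * W = 1) : nn W = m := by simp [nn, h]
theorem nn_two {W V : M n m} (h : Wᴴ * W = 1) (h' : Vᴴ * V = 1) : nn (W - V) ≤ 4 * m := by
  have := nn_add W (-V)
  rw [nn_neg, nn_iso h, nn_iso h', ← sub_eq_add_neg] at this; linarith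
theorem nn_sum {J : Type} (s : Finset J) (X : J → M n m) : nn (∑ j ∈ s, X j) ≤ 2 ^ #s * ∑ j ∈ s, nn (X j) := by
  classical
  induction s using Finset.induction_on with
  | empty => simp [nn]
  | insert a s ha ih =>
    rw [sum_insert ha, sum_insert ha, card_insert_of_notMem ha, pow_succ]
    have := nn_add (X a) (∑ j ∈ s, X j)
    have := mul_le_mul_of_nonneg_right (one_le_pow₀ (n := #s) (one_le_two (α := ℝ))) (nn_nonneg (X a))
    linarith
theorem nn_empty (X : M n m) (h : m = 0) : nn X = 0 := by subst h; simp [nn]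

abbrev Pr := ∀ ⦃n m : ℕ⦄, M n m → Prop

def E (f : Fin m → Fin n) : M n m := of fun i j => if i = f j then 1 else 0

theorem E_mul (f : Fin m → Fin n) (g : Fin k → Fin m) : E f * E g = E (f ∘ g) := by
  ext i j; simp [E, mul_apply]
theorem E_H_mul (f : Fin m → Fin n) (g : Fin k → Fin n) (i j) : ((E f)ᴴ * E g) i j = if f i = g j then 1 else 0 := by
  simp [E, mul_apply, apply_ite, eq_comm]
theorem E_id : E (id : Fin n → Fin n) = 1 := by ext i j; simp [E, one_apply]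

structure Dec (A : Pr) {J : Type} [Fintype J] (m : J → ℕ) (Y : ∀ j, M n (m j)) : Prop where
  al : ∀ j, A (Y j)
  orth : ∀ i j, i ≠ j → (Y i)ᴴ * Y j = 0
  sz : ∑ j, m j = n

structure Cls (A : Pr) : Prop where
  iso : ∀ {n m} {W : M n m}, A W → Wᴴ * W = 1
  mul : ∀ {n m k} {W : M n m} {V : M m k}, A W → A V → A (W * V)
  inj : ∀ {n m} (f : Fin m → Fin n), f.Injective → A (E f)
  glue : ∀ {J : Type} [Fintype J] {n} {m : J → ℕ} (Y Y' : ∀ j, M n (m j)), Dec A m Y → Dec A m Y' → A (∑ j, Y' j * (Y j)ᴴ)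
  compl : ∀ {J : Type} [Fintype J] {n k} {m : J → ℕ} (Y : ∀ j, M n (m j)), (∀ j, A (Y j)) →
    (∀ i j, i ≠ j → (Y i)ᴴ * Y j = 0) → ∑ j, m j + k = n → ∃ W : M n k, A W ∧ ∀ j, (Y j)ᴴ * W = 0
  cmp : ∀ {n m} (W : M n m) (u : M n n), A W → A u → ∃ U : M m m, A U ∧ nn (u * W - W * U) ≤ 4 * (n - m) + 2

structure Rep (A : Pr) {G : Type} [Group G] (ρ : G → M n n) : Prop where
  al : ∀ a, A (ρ a)
  mul : ∀ a b, ρ (a * b) = ρ a * ρ b

variable {A : Pr} {G : Type} [Group G]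

theorem projs {J : Type} [Fintype J] {m : J → ℕ} {Y : ∀ j, M n (m j)} (h1 : ∀ j, (Y j)ᴴ * Y j = 1)
    (h2 : ∀ i j, i ≠ j → (Y i)ᴴ * Y j = 0) : (∀ i, (∑ j, Y j * (Y j)ᴴ) * Y i = Y i) ∧
      (∑ j, Y j * (Y j)ᴴ) * (∑ j, Y j * (Y j)ᴴ) = ∑ j, Y j * (Y j)ᴴ ∧ trace (∑ j, Y j * (Y j)ᴴ) = (∑ j, m j : ℕ) := by
  have a : ∀ i, (∑ j, Y j * (Y j)ᴴ) * Y i = Y i := fun i => by
    rw [Matrix.sum_mul, sum_eq_single i (fun j _ ne => by rw [Matrix.mul_assoc, h2 j i ne, Matrix.mul_zero]) (by simp),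
      Matrix.mul_assoc, h1, Matrix.mul_one]
  refine ⟨a, ?_, ?_⟩
  · rw [Matrix.mul_sum]; exact sum_congr rfl fun j _ => by rw [← Matrix.mul_assoc, a]
  · rw [trace_sum, Nat.cast_sum]; exact sum_congr rfl fun j _ => by rw [trace_mul_comm, h1]; simp

theorem Dec.one (c : Cls A) {J : Type} [Fintype J] {m : J → ℕ} {Y : ∀ j, M n (m j)} (h : Dec A m Y) :
    ∑ j, Y j * (Y j)ᴴ = 1 := by
  obtain ⟨-, a, b⟩ := projs (fun j => c.iso (h.al j)) h.orth
  have := nn_proj (P := 1 - ∑ j, Y j * (Y j)ᴴ) (by simp [conjTranspose_sum]) (by simp [mul_sub, sub_mul, a]) (1 : M n n)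
  rw [Matrix.one_mul] at this
  refine (sub_eq_zero.1 (nn_zero (this.trans_le ?_))).symm
  simp [b, h.sz]

theorem Dec.nn (c : Cls A) {J : Type} [Fintype J] {m : J → ℕ} {Y : ∀ j, M n (m j)} (h : Dec A m Y) (X : M k n) :
    nn X = ∑ j, nn (X * Y j) := by
  simp only [nn_r']
  rw [← Complex.re_sum, ← trace_sum, ← Matrix.mul_sum, h.one c, Matrix.mul_one]; rfl

theorem Cls.one (c : Cls A) : A (1 : M n n) := E_id (n := n) ▸ c.inj id Function.injective_id

theorem Cls.adj (c : Cls A) {U : M n n} (h : A U) : A Uᴴ := by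
  simpa using c.glue (J := Unit) (m := fun _ => n) (fun _ => U) (fun _ => 1) ⟨fun _ => h, by simp, by simp⟩
    ⟨fun _ => c.one, by simp, by simp⟩

theorem Cls.iso' (c : Cls A) {U : M n n} (h : A U) : U * Uᴴ = 1 := by simpa using c.iso (c.adj h)

theorem Rep.one (c : Cls A) {ρ : G → M n n} (h : Rep A ρ) : ρ 1 = 1 := by
  have := congrArg ((ρ 1)ᴴ * ·) (h.mul 1 1)
  simp only [mul_one, ← Matrix.mul_assoc, c.iso (h.al 1), Matrix.one_mul] at this
  exact this.symm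

theorem Rep.inv (c : Cls A) {ρ : G → M n n} (h : Rep A ρ) (a : G) : ρ a⁻¹ = (ρ a)ᴴ := by
  have := congrArg ((ρ a)ᴴ * ·) (h.mul a a⁻¹)
  simp only [mul_inv_cancel, h.one c, ← Matrix.mul_assoc, c.iso (h.al a), Matrix.one_mul, Matrix.mul_one] at this
  exact this.symm

theorem Cls.triv (c : Cls A) : Rep A fun _ : G => (1 : M n n) := ⟨fun _ => c.one, fun _ _ => by simp⟩

theorem asm (c : Cls A) {J : Type} [Fintype J] {m : J → ℕ} {Y : ∀ j, M n (m j)} (h : Dec A m Y) (σ : ∀ j, G → M (m j) (m j))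
    (hσ : ∀ j, Rep A (σ j)) : ∃ ρ : G → M n n, Rep A ρ ∧ ∀ j a, ρ a * Y j = Y j * σ j a := by
  have e : ∀ j a, (∑ i, Y i * σ i a * (Y i)ᴴ) * Y j = Y j * σ j a := fun j a => by
    rw [Matrix.sum_mul, sum_eq_single j (fun i _ ne => by rw [Matrix.mul_assoc, h.orth i j ne, Matrix.mul_zero]) (by simp),
      Matrix.mul_assoc, c.iso (h.al j), Matrix.mul_one]
  refine ⟨fun a => ∑ j, Y j * σ j a * (Y j)ᴴ, ⟨fun a => c.glue Y _ h ⟨fun j => c.mul (h.al j) ((hσ j).al a), fun i j ne => ?_,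
    h.sz⟩, fun a b => ?_⟩, e⟩
  · rw [conjTranspose_mul, Matrix.mul_assoc, ← Matrix.mul_assoc (Y i)ᴴ, h.orth i j ne]; simp
  · rw [Matrix.mul_sum]
    exact sum_congr rfl fun j _ => by rw [← Matrix.mul_assoc, ← Matrix.mul_assoc, e, (hσ j).mul]; simp [Matrix.mul_assoc]

theorem dec_ex (c : Cls A) {J : Type} [Fintype J] (m : J → ℕ) : ∃ Y : ∀ j, M (∑ j, m j) (m j), Dec A m Y := by
  classical
  let e : (Σ j, Fin (m j)) ≃ Fin (∑ j, m j) := Fintype.equivFinOfCardEq (by simp)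
  refine ⟨fun j => E fun x => e ⟨j, x⟩, fun j => c.inj _ fun x y h => by simpa using h, fun i j ne => ?_, rfl⟩
  ext x y; simp [E_H_mul, ne]

def St (A : Pr) (G : Type) [Group G] : Prop :=
  ∀ (k : ℕ → ℕ) (φ : ∀ i, G → M (k i) (k i)), (∀ i a, A (φ i a)) →
    (∀ a b, Tendsto (fun i => nn (φ i a * φ i b - φ i (a * b)) / k i) atTop (𝓝 0)) →
    ∃ ψ : ∀ i, G → M (k i) (k i), (∀ i, Rep A (ψ i)) ∧ ∀ a, Tendsto (fun i => nn (φ i a - ψ i a) / k i) atTop (𝓝 0)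

theorem St.unif (h : St A G) (F : Finset G) {ε : ℝ} (e0 : 0 < ε) : ∃ δ > 0, ∀ n (φ : G → M n n), (∀ a, A (φ a)) →
    (∀ a b, nn (φ a * φ b - φ (a * b)) ≤ δ * n) → ∃ ψ : G → M n n, Rep A ψ ∧ ∀ a ∈ F, nn (φ a - ψ a) ≤ ε * n := by
  by_contra! no
  choose k φ h1 h2 h3 using fun i : ℕ => no (1 / (i + 1)) (by positivity)
  obtain ⟨ψ, p1, p2⟩ := h k φ h1 fun a b => squeeze_zero (fun i => div_nonneg (nn_nonneg _) (Nat.cast_nonneg _))
    (fun i => div_le_of_le_mul₀ (Nat.cast_nonneg _) (by positivity) (h2 i a b)) tendsto_one_div_add_atTop_nhds_zero_nat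
  obtain ⟨i, hi⟩ := ((eventually_all_finset F).2 fun a _ => (p2 a).eventually (gt_mem_nhds e0)).exists
  obtain ⟨a, a1, a2⟩ := h3 i (ψ i) (p1 i)
  rcases Nat.eq_zero_or_pos (k i) with z | z
  · rw [nn_empty _ z, z] at a2; simp at a2
  · exact absurd ((div_lt_iff₀ (by exact_mod_cast z)).1 (hi a a1)) a2.le.not_gt

end Pool.Agent.H.MP_098da0_al
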