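import Pool.Agent.H.MP_098da0_al.A

open Matrix Finset Filter Topology

namespace Pool.Agent.H.MP_098da0_al

theorem ratl {J : Type} [Fintype J] (z : J → ℝ) (O : Set (J → ℝ)) (hO : IsOpen O) (hz : z ∈ O) :
    ∃ q : J → ℚ, (fun j => (q j : ℝ)) ∈ O ∧ ∀ c : J → ℚ, ∑ j, (c j : ℝ) * z j = 0 → ∑ j, c j * q j = 0 := by
  classical
  let B := Module.Basis.ofVectorSpace ℚ ℝ
  let S := univ.biUnion fun j => (B.repr (z j)).support
  let Φ : (S → ℝ) → J → ℝ := fun u j => ∑ i : S, (B.repr (z j) i : ℝ) * u i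
  have h1 : Φ (fun i => B i) = z := funext fun j => by
    have := B.linearCombination_repr (z j)
    rw [Finsupp.linearCombination_apply, Finsupp.sum_of_support_subset _
      (subset_biUnion_of_mem (fun j => (B.repr (z j)).support) (mem_univ j)) _ (by simp)] at this
    simp only [Φ, ← Rat.smul_def]
    rw [sum_coe_sort S fun i => B.repr (z j) i • B i]; exact this
  obtain ⟨u, hu⟩ := (DenseRange.piMap fun _ : S => (Rat.denseRange_cast (𝕜 := ℝ))).exists_mem_open
    (hO.preimage (show Continuous Φ by fun_prop)) ⟨_, show Φ _ ∈ O from h1 ▸ hz⟩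
  refine ⟨fun j => ∑ i : S, B.repr (z j) i * u i, by simpa [Φ] using hu, fun c hc => ?_⟩
  have : ∀ i, ∑ j, c j * B.repr (z j) i = 0 := fun i => by
    have := congrArg (B.repr · i) hc
    simpa [← Rat.smul_def] using this
  simp only [mul_sum, ← mul_assoc]
  rw [sum_comm]; simp [← sum_mul, this]

theorem ratl2 {J D : Type} [Fintype J] (c : D → J → ℚ) (b : D → ℚ) {ε : ℝ} (e0 : 0 < ε) (ξ : J → ℝ) (h0 : ∀ j, 0 ≤ ξ j)
    (h : ∀ e, ∑ j, (c e j : ℝ) * ξ j = b e) :
    ∃ q : J → ℚ, (∀ j, 0 ≤ q j ∧ |q j - ξ j| < ε) ∧ ∀ e, ∑ j, c e j * q j = b e := by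
  classical
  obtain ⟨q, ⟨h1, h2⟩, h3⟩ := ratl (fun o : Option J => o.elim 1 ξ) ({z | 0 < z none} ∩ ⋂ j, ({z | |z (some j) - ξ j * z none| < ε * z none} ∩
    {z | 0 < z (some j) + if ξ j = 0 then 1 + |z (some j)| else 0}))
    ((isOpen_lt continuous_const (by fun_prop)).inter (isOpen_iInter_of_finite fun j => (isOpen_lt (by fun_prop) (by fun_prop)).inter
      (isOpen_lt continuous_const (by split_ifs <;> fun_prop))))
    ⟨by simp, Set.mem_iInter.2 fun j => ⟨by simpa, by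
      have := h0 j
      simp only [Set.mem_ofPred_eq, Option.elim]
      split_ifs with e
      · simp [e]
      · simpa using lt_of_le_of_ne this (Ne.symm e)⟩⟩
  simp only [Set.mem_ofPred_eq, Set.mem_iInter, Set.mem_inter_iff] at h1 h2
  have p : 0 < q none := by exact_mod_cast h1
  refine ⟨fun j => q (some j) / q none, fun j => ⟨div_nonneg ?_ p.le, ?_⟩, fun e => ?_⟩
  · by_cases e : ξ j = 0
    · simpa [Pi.single_apply] using (h3 (Pi.single (some j) 1) (by simp [Pi.single_apply, apply_ite, e])).ge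
    · have := (h2 j).2; rw [if_neg e, add_zero] at this; exact_mod_cast this.le
  · push_cast
    rw [div_sub' h1.ne', abs_div, abs_of_pos h1, div_lt_iff₀ h1, mul_comm (q none : ℝ)]; exact (h2 j).1
  · have := h3 (fun o => o.elim (-b e) (c e)) (by simp [Fintype.sum_option, h e])
    simp only [Fintype.sum_option, Option.elim] at this
    simp only [← mul_div_assoc, ← sum_div]
    rw [div_eq_iff p.ne']; linarith

theorem lat {J D : Type} [Fintype J] (c : D → J → ℚ) (b : D → ℚ) {ε : ℝ} (e0 : 0 < ε) : ∃ δ > 0, ∃ d : ℕ, 0 < d ∧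
    ∀ ξ : J → ℝ, ξ ∈ Set.Icc 0 1 → (∀ e, |∑ j, (c e j : ℝ) * ξ j - b e| ≤ δ) →
      ∃ q : J → ℕ, (∀ e, ∑ j, c e j * q j = d * b e) ∧ ∀ j, |(q j : ℝ) / d - ξ j| ≤ ε := by
  by_contra! no
  choose ξ h1 h2 h3 using fun i : ℕ => no (1 / (i + 1)) (by positivity) i.factorial i.factorial_pos
  obtain ⟨z, z1, φ, mono, lim⟩ := isCompact_Icc.tendsto_subseq h1
  obtain ⟨q, q1, q2⟩ := ratl2 c b (half_pos e0) z z1.1 fun e => by
    have a1 : Tendsto (fun i => |∑ j, (c e j : ℝ) * ξ (φ i) j - b e|) atTop (𝓝 |∑ j, (c e j : ℝ) * z j - b e|) :=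
      ((show Continuous fun y : J → ℝ => |∑ j, (c e j : ℝ) * y j - b e| by fun_prop).tendsto z).comp lim
    have := le_of_tendsto_of_tendsto' a1 (tendsto_one_div_add_atTop_nhds_zero_nat.comp mono.tendsto_atTop) fun i => h2 _ e
    exact sub_eq_zero.1 (abs_nonpos_iff.1 this)
  obtain ⟨i, i1, i2⟩ := ((lim.eventually (Metric.ball_mem_nhds z (half_pos e0))).and
    (mono.tendsto_atTop.eventually_ge_atTop (∑ j, (q j).den))).exists
  have : ∀ j, ∃ p : ℕ, (p : ℚ) = (φ i).factorial * q j := fun j => by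
    obtain ⟨t, ht⟩ := Nat.dvd_factorial (q j).den_pos ((single_le_sum (f := fun j => (q j).den) (fun _ _ => Nat.zero_le _)
      (mem_univ j)).trans i2)
    refine ⟨t * (q j).num.toNat, ?_⟩
    have : (((q j).num.toNat : ℤ) : ℚ) = (q j).num := by rw [Int.toNat_of_nonneg (Rat.num_nonneg.2 (q1 j).1)]
    rw [ht]; push_cast at this ⊢
    rw [this, ← Rat.mul_den_eq_num]; ring
  choose p hp using this
  obtain ⟨j, hj⟩ := h3 (φ i) p fun e => by simp only [hp, mul_left_comm (c e _), ← mul_sum, q2]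
  have e1 : (p j : ℝ) / (φ i).factorial = q j := by
    rw [div_eq_iff (by exact_mod_cast (φ i).factorial_ne_zero), mul_comm]; exact_mod_cast hp j
  have e2 := (dist_pi_lt_iff (half_pos e0)).1 i1 j
  rw [e1] at hj
  have := abs_sub_le (q j : ℝ) (z j) (ξ (φ i) j)
  rw [dist_comm, Real.dist_eq] at e2
  have := (q1 j).2
  simp only [Function.comp] at e2
  linarith

end Pool.Agent.H.MP_098da0_al
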