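import Pool.Agent.H.MP_098da0_al.B

open Matrix Finset Filter Topology

namespace Pool.Agent.H.MP_098da0_al

variable {A : Pr} {G H D T : Type} [Group G] [Group H] [Fintype H] [Fintype T]

structure InvAx (A : Pr) (v : ∀ ⦃n⦄, (H → M n n) → D → ℤ) : Prop where
  add : ∀ {J : Type} [Fintype J] {n} {m : J → ℕ} (Y : ∀ j, M n (m j)) (α : H → M n n) (β : ∀ j, H → M (m j) (m j)),
    Dec A m Y → Rep A α → (∀ j, Rep A (β j)) → (∀ j h, α h * Y j = Y j * β j h) → v α = ∑ j, v (β j)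
  lip : ∃ C : ℝ, 0 < C ∧ ∀ n (α β : H → M n n), Rep A α → Rep A β → ∀ d,
    ((v α d : ℝ) - v β d) ^ 2 ≤ C * n * ∑ h, nn (α h - β h)
  rig : ∃ C : ℝ, 0 < C ∧ ∀ n (α β : H → M n n), Rep A α → Rep A β → v α = v β → ∀ η > 0,
    ∃ U : M n n, A U ∧ (∀ h, β h * U = U * α h) ∧ nn (U - 1) ≤ C * ∑ h, nn (α h - β h) + η

structure TypAx (A : Pr) (f : H →* G) (v : ∀ ⦃n⦄, (H → M n n) → D → ℤ) (Pure : T → ∀ ⦃n⦄, (G → M n n) → Prop) : Prop where
  dec : ∀ n (ρ : G → M n n), Rep A ρ → ∃ (m : T → ℕ) (Y : ∀ τ, M n (m τ)) (σ : ∀ τ, G → M (m τ) (m τ)), Dec A m Y ∧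
    ∀ τ, Rep A (σ τ) ∧ Pure τ (σ τ) ∧ ∀ a, ρ a * Y τ = Y τ * σ τ a
  far : ∃ (F : Finset G) (C : ℝ), 0 < C ∧ ∀ τ τ', τ ≠ τ' → ∀ n m (ρ : G → M n n) (σ : G → M m m) (W : M n m), Rep A ρ → Rep A σ →
    Pure τ ρ → Pure τ' σ → A W → (m : ℝ) ≤ C * ∑ a ∈ F, nn (ρ a * W - W * σ a)
  prop : ∀ τ n m (ρ : G → M n n) (σ : G → M m m), Rep A ρ → Rep A σ → Pure τ ρ → Pure τ σ →
    ∀ d, m * v (ρ ∘ f) d = n * v (σ ∘ f) d

variable {f : H →* G} {v : ∀ ⦃n⦄, (H → M n n) → D → ℤ} {Pure : T → ∀ ⦃n⦄, (G → M n n) → Prop}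

omit [Fintype H] in
theorem Rep.comp {n} {ρ : G → M n n} (h : Rep A ρ) (f : H →* G) : Rep A (ρ ∘ f) :=
  ⟨fun a => h.al _, fun a b => by simp [h.mul]⟩

omit [Fintype H] in
theorem shrink (c : Cls A) (s : St A G) (t : TypAx A f v Pure) (F : Finset G) {ε : ℝ} (e0 : 0 < ε) : ∃ δ > 0, δ ≤ ε ∧
    ∀ τ (n x k : ℕ) (ρ : G → M x x), Rep A ρ → Pure τ ρ → x ≤ n → 1 ≤ k → k ≤ δ * n →
      ∃ (y : ℕ) (W : M x y) (σ : G → M y y), A W ∧ Rep A σ ∧ (y = 0 ∨ Pure τ σ ∧ y + k ≤ x) ∧ x ≤ y + ε * n ∧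
        ∀ a ∈ F, nn (ρ a * W - W * σ a) ≤ ε * n := by
  classical
  obtain ⟨F0, C, C0, far⟩ := t.far
  obtain ⟨L, L1, hL⟩ : ∃ L : ℝ, 1 ≤ L ∧ L = Fintype.card T * (C * #F0) + 1 := ⟨_, le_add_of_nonneg_left (by positivity), rfl⟩
  obtain ⟨δ1, d0, st⟩ := s.unif (F ∪ F0) (ε := ε / (8 * L)) (by positivity)
  have dL : ε / (48 * L) ≤ ε / 48 := div_le_div_of_nonneg_left e0.le (by norm_num) (by linarith)
  refine ⟨min (ε / (48 * L)) (δ1 * ε / 120), by positivity, (min_le_left _ _).trans (by linarith),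
    fun τ n x k ρ hρ pρ xn k1 kn => ?_⟩
  have n0 : (0 : ℝ) ≤ n := Nat.cast_nonneg n
  by_cases hx : (x : ℝ) ≤ ε * n
  · refine ⟨0, E Fin.elim0, fun _ => 1, c.inj _ (Function.injective_of_subsingleton _), c.triv, .inl rfl, by simpa,
      fun a _ => by rw [nn_empty _ rfl]; positivity⟩
  have k2 : (k : ℝ) ≤ ε / (48 * L) * n := kn.trans (mul_le_mul_of_nonneg_right (min_le_left _ _) n0)
  have k3 : (k : ℝ) ≤ δ1 * ε / 120 * n := kn.trans (mul_le_mul_of_nonneg_right (min_le_right _ _) n0)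
  have k4 : (k : ℝ) ≤ ε / 48 * n := k2.trans (mul_le_mul_of_nonneg_right dL n0)
  have en : 0 ≤ ε * n := by positivity
  have kx : k ≤ x := by exact_mod_cast (by linarith : (k : ℝ) ≤ x)
  obtain ⟨m', rfl⟩ := Nat.exists_eq_add_of_le' kx
  have aW := c.inj _ (Fin.castLE_injective (Nat.le_add_right m' k))
  set W1 := E (Fin.castLE (Nat.le_add_right m' k))
  choose φ p1 p2 using fun a => c.cmp W1 (ρ a) aW (hρ.al a)
  have p3 : ∀ a, nn (ρ a * W1 - W1 * φ a) ≤ 6 * k := fun a => by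
    have := p2 a; have : (1 : ℝ) ≤ k := by exact_mod_cast k1
    push_cast at *; linarith
  push_cast at hx
  obtain ⟨σ1, r1, r2⟩ := st m' φ p1 fun a b => by
    rw [← nn_l (c.iso aW), show W1 * (φ a * φ b - φ (a * b)) = -((ρ a * W1 - W1 * φ a) * φ b + ρ a * (ρ b * W1 - W1 * φ b)) +
      (ρ (a * b) * W1 - W1 * φ (a * b)) by simp only [hρ.mul, Matrix.mul_sub, Matrix.sub_mul, Matrix.mul_assoc]; abel]
    have a1 := nn_add (-((ρ a * W1 - W1 * φ a) * φ b + ρ a * (ρ b * W1 - W1 * φ b))) (ρ (a * b) * W1 - W1 * φ (a * b))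
    have a2 := nn_add ((ρ a * W1 - W1 * φ a) * φ b) (ρ a * (ρ b * W1 - W1 * φ b))
    have a3 := nn_r (c.iso (p1 b)) (ρ a * W1 - W1 * φ a)
    rw [nn_neg] at a1
    rw [nn_l (c.iso (hρ.al a))] at a2
    have := mul_le_mul_of_nonneg_left (show ε * n / 2 ≤ m' by linarith) d0.le
    linarith [p3 a, p3 b, p3 (a * b)]
  obtain ⟨m, Y, σ, hd, hσ⟩ := t.dec _ σ1 r1
  have bd : ∀ a ∈ F ∪ F0, ∀ τ', nn (ρ a * (W1 * Y τ') - W1 * Y τ' * σ τ' a) ≤ ε * n / (2 * L) := fun a ha τ' => by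
    rw [Matrix.mul_assoc W1, ← (hσ τ').2.2, ← Matrix.mul_assoc, ← Matrix.mul_assoc, ← Matrix.sub_mul]
    refine (nn_r (c.iso (hd.al _)) _).trans ((nn_tri _ (W1 * φ a) _).trans ?_)
    rw [← Matrix.mul_sub, nn_l (c.iso aW)]
    have := (r2 a ha).trans (mul_le_mul_of_nonneg_left (show (m' : ℝ) ≤ n by exact_mod_cast (by omega)) (by positivity))
    have e : ε * n / (2 * L) = 12 * (ε / (48 * L) * n) + 2 * (ε / (8 * L) * n) := by field_simp; ring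
    linarith [p3 a]
  have sz := hd.sz
  rw [← add_sum_erase _ _ (mem_univ τ)] at sz
  have wr : ((∑ τ' ∈ univ.erase τ, m τ' : ℕ) : ℝ) ≤ Fintype.card T * (C * (#F0 * (ε * n / (2 * L)))) := by
    rw [Nat.cast_sum]
    refine (sum_le_card_nsmul _ _ _ fun τ' h => (far τ τ' (ne_of_mem_erase h).symm _ _ ρ (σ τ') _ hρ (hσ τ').1 pρ (hσ τ').2.1
      (c.mul aW (hd.al τ'))).trans (mul_le_mul_of_nonneg_left (sum_le_card_nsmul _ _ _ fun a ha =>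
        bd a (mem_union_right _ ha) τ') C0.le)).trans ?_
    rw [nsmul_eq_mul, nsmul_eq_mul]
    exact mul_le_mul_of_nonneg_right (by exact_mod_cast card_le_univ _) (by positivity)
  have l2 : ε * n / (2 * L) * L = ε * n / 2 := by field_simp
  have l3 : 0 ≤ ε * n / (2 * L) := by positivity
  refine ⟨m τ, W1 * Y τ, σ τ, c.mul aW (hd.al τ), (hσ τ).1, .inr ⟨(hσ τ).2.1, by omega⟩, ?_, fun a ha =>
    (bd a (mem_union_left _ ha) τ).trans (by nlinarith)⟩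
  have : ((m τ + ∑ τ' ∈ univ.erase τ, m τ' : ℕ) : ℝ) = m' := by rw [sz]
  rw [Nat.cast_add] at this ⊢
  generalize ε * n / (2 * L) = w at *
  rw [hL] at l2
  nlinarith

theorem modif (c : Cls A) (s : St A G) (i : InvAx A v) (t : TypAx A f v Pure) :
    ∃ (sz : T → ℕ) (r : T → D → ℚ) (τ0 : T), sz τ0 = 1 ∧ (∀ d, r τ0 d = v (fun _ => (1 : M 1 1)) d) ∧
    ∀ (F : Finset G) (ε : ℝ), 0 < ε → ∃ δ > 0, ∃ N : ℕ, ∀ n (ρ : G → M n n), Rep A ρ → ∃ x : T → ℕ, ∑ τ, x τ = n ∧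
      (∀ τ, sz τ = 0 → x τ = 0) ∧ (∀ d, (v (ρ ∘ f) d : ℚ) = ∑ τ, x τ * r τ d) ∧ (N ≤ n → ∀ u : T → ℕ, ∑ τ, u τ = n →
        (∀ τ, sz τ ∣ u τ) → (∀ τ, |(u τ : ℝ) - x τ| ≤ δ * n) → ∃ ρ' : G → M n n, Rep A ρ' ∧
          (∀ d, (v (ρ' ∘ f) d : ℚ) = ∑ τ, u τ * r τ d) ∧ ∀ a ∈ F, nn (ρ a - ρ' a) ≤ ε * n) := by
  classical
  let S (τ : T) : Set ℕ := {n | ∃ ρ : G → M n n, Rep A ρ ∧ Pure τ ρ}
  have z : ∀ n (α : H → M n n), Rep A α → n = 0 → v α = 0 := fun n α h e => by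
    simpa using i.add (J := Empty) (m := fun _ => 0) (fun j => j.elim) α (fun j => j.elim)
      ⟨fun j => j.elim, fun j => j.elim, by simp [e]⟩ h (fun j => j.elim) fun j => j.elim
  obtain ⟨τ0, p0⟩ : ∃ τ0, Pure τ0 fun _ : G => (1 : M 1 1) := by
    obtain ⟨m, Y, σ, hd, hσ⟩ := t.dec 1 _ c.triv
    obtain ⟨τ, -, h⟩ := exists_ne_zero_of_sum_ne_zero (hd.sz.trans_ne one_ne_zero)
    have h1 : m τ = 1 := by have := single_le_sum (f := m) (fun _ _ => Nat.zero_le _) (mem_univ τ); have := hd.sz; omega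
    have h2 : σ τ = fun _ => 1 := funext fun a => by
      have := congrArg ((Y τ)ᴴ * ·) ((hσ τ).2.2 a)
      simpa [← Matrix.mul_assoc, c.iso (hd.al τ)] using this.symm
    have := (hσ τ).2.1
    rw [h2] at this
    exact ⟨τ, by rwa [h1] at this⟩
  have ch : ∀ τ, ∃ (n : ℕ) (ρ : G → M n n), Rep A ρ ∧ (n = 0 ∨ Pure τ ρ) ∧ (n = 0 → S τ ⊆ {0}) ∧
      (τ = τ0 → n = 1 ∧ v (ρ ∘ f) = v fun _ => (1 : M 1 1)) := fun τ => by
    by_cases e : τ = τ0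
    · exact ⟨1, _, c.triv, .inr (e ▸ p0), by simp, fun _ => ⟨rfl, rfl⟩⟩
    by_cases h : S τ ⊆ {0}
    · exact ⟨0, _, c.triv, .inl rfl, fun _ => h, fun h => absurd h e⟩
    · obtain ⟨n, ⟨ρ, h1, h2⟩, h3⟩ := Set.not_subset.1 h
      exact ⟨n, ρ, h1, .inr h2, fun h => absurd h h3, fun h => absurd h e⟩
  choose sz π c1 c2 c3 c4 using ch
  let r : T → D → ℚ := fun τ d => v (π τ ∘ f) d / sz τ
  have pr : ∀ τ n (ρ : G → M n n), Rep A ρ → n = 0 ∨ Pure τ ρ → ∀ d, (v (ρ ∘ f) d : ℚ) = n * r τ d := fun τ n ρ h1 h2 d => by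
    by_cases e : n = 0
    · simp [z n _ (h1.comp f) e, e]
    have h3 : sz τ ≠ 0 := fun h => e (c3 τ h ⟨ρ, h1, h2.resolve_left e⟩)
    have := t.prop τ _ _ _ _ h1 (c1 τ) (h2.resolve_left e) ((c2 τ).resolve_left h3) d
    simp only [r]
    rw [← mul_div_assoc, eq_div_iff (by exact_mod_cast h3), mul_comm]; exact_mod_cast this
  have good : ∀ τ, ∀ n ∈ AddSubmonoid.closure (S τ), ∃ ρ : G → M n n, Rep A ρ ∧ ∀ d, (v (ρ ∘ f) d : ℚ) = n * r τ d := by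
    intro τ n hn
    induction hn using AddSubmonoid.closure_induction with
    | mem n h => obtain ⟨ρ, h1, h2⟩ := h; exact ⟨ρ, h1, pr τ n ρ h1 (.inr h2)⟩
    | zero => exact ⟨_, c.triv, pr τ 0 _ c.triv (.inl rfl)⟩
    | add a b _ _ ha hb =>
      have : ∀ j : Bool, ∃ ρ : G → M (cond j a b) (cond j a b), Rep A ρ ∧ ∀ d, (v (ρ ∘ f) d : ℚ) = (cond j a b : ℕ) * r τ d :=
        fun j => by cases j; exacts [hb, ha]
      choose σ h1 h2 using this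
      obtain ⟨Y, hY⟩ := dec_ex c fun j : Bool => cond j a b
      obtain ⟨ρ, p1, p2⟩ := asm c hY σ h1
      rw [show a + b = ∑ j : Bool, cond j a b by simp]
      refine ⟨ρ, p1, fun d => ?_⟩
      rw [i.add Y _ (fun j => σ j ∘ f) hY (p1.comp f) (fun j => (h1 j).comp f) fun j h => p2 j _]
      simp [h2, add_mul]
  choose B hB using fun τ => Nat.exists_mem_closure_of_ge (S τ)
  have mem : ∀ τ, sz τ ∈ AddSubmonoid.closure (S τ) := fun τ => (c2 τ).elim (fun e => e ▸ zero_mem _)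
    fun h => AddSubmonoid.subset_closure ⟨_, c1 τ, h⟩
  refine ⟨sz, r, τ0, (c4 _ rfl).1, fun d => by simp [r, c4 τ0 rfl], fun F ε e0 => ?_⟩
  obtain ⟨δ, d0, de, sh⟩ := shrink c s t F (ε := ε / (9 * (Fintype.card T + 1))) (by positivity)
  obtain ⟨N, hN⟩ := exists_nat_ge ((∑ τ, B τ + 2 : ℕ) * 2 / δ)
  refine ⟨δ / 2, by positivity, N, fun n ρ hρ => ?_⟩
  obtain ⟨x, Y, σ, hd, hσ⟩ := t.dec n ρ hρ
  refine ⟨x, hd.sz, fun τ h => c3 τ h ⟨_, (hσ τ).1, (hσ τ).2.1⟩, fun d => ?_, fun hn u su du cu => ?_⟩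
  · rw [i.add Y _ (fun j => σ j ∘ f) hd (hρ.comp f) (fun j => (hσ j).1.comp f) fun j h => (hσ j).2.2 _]
    simp [fun τ => pr τ _ _ (hσ τ).1 (.inr (hσ τ).2.1)]
  have n0 : (0 : ℝ) ≤ n := Nat.cast_nonneg n
  have hk : ((⌈δ / 2 * n⌉₊ + ∑ τ, B τ + 1 : ℕ) : ℝ) ≤ δ * n := by
    have := Nat.ceil_lt_add_one (show 0 ≤ δ / 2 * n by positivity)
    have := (div_le_iff₀ d0).1 (hN.trans (Nat.cast_le.2 hn))
    push_cast at *; linarith
  choose y W σ' w1 w2 w3 w4 w5 using fun τ => sh τ n (x τ) _ (σ τ) (hσ τ).1 (hσ τ).2.1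
    (hd.sz ▸ single_le_sum (f := x) (fun _ _ => Nat.zero_le _) (mem_univ τ)) (by omega) hk
  have fl : ∀ τ, y τ ≤ u τ ∧ u τ - y τ ∈ AddSubmonoid.closure (S τ) := fun τ => by
    rcases w3 τ with e | ⟨e1, e2⟩
    · obtain ⟨w, hw⟩ := du τ
      rw [e, Nat.sub_zero, hw, mul_comm]
      exact ⟨Nat.zero_le _, nsmul_mem (mem τ) w⟩
    · have a1 : x τ ≤ u τ + ⌈δ / 2 * n⌉₊ := by
        have := (abs_le.1 (cu τ)).1; have := Nat.le_ceil (δ / 2 * n)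
        exact_mod_cast (by linarith : (x τ : ℝ) ≤ u τ + ⌈δ / 2 * n⌉₊)
      have := single_le_sum (f := B) (fun _ _ => Nat.zero_le _) (mem_univ τ)
      exact ⟨by omega, hB τ _ (by omega) (Nat.dvd_sub ((Nat.setGcd_dvd_of_mem_closure (mem τ)).trans (du τ))
        (Nat.setGcd_dvd_of_mem ⟨_, w2 τ, e1⟩))⟩
  choose π' q1 q2 using fun τ => good τ _ (fl τ).2
  have o1 : ∀ i j, i ≠ j → (Y i * W i)ᴴ * (Y j * W j) = 0 := fun i j ne => by
    rw [conjTranspose_mul, Matrix.mul_assoc, ← Matrix.mul_assoc (Y i)ᴴ, hd.orth i j ne]; simp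
  have s1 : ∑ τ, y τ + ∑ τ, (u τ - y τ) = n := by
    rw [← sum_add_distrib, ← su]; exact sum_congr rfl fun τ _ => Nat.add_sub_of_le (fl τ).1
  obtain ⟨W', a1, a2⟩ := c.compl (fun τ => Y τ * W τ) (fun τ => c.mul (hd.al τ) (w1 τ)) o1 s1
  obtain ⟨Y', hY⟩ := dec_ex c fun τ => u τ - y τ
  let Z : ∀ j : T ⊕ T, M n (Sum.elim y (fun τ => u τ - y τ) j) := fun j => match j with
    | .inl τ => Y τ * W τ
    | .inr τ => W' * Y' τ
  let ω : ∀ j : T ⊕ T, G → M (Sum.elim y (fun τ => u τ - y τ) j) (Sum.elim y (fun τ => u τ - y τ) j) := fun j => match j with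
    | .inl τ => σ' τ
    | .inr τ => π' τ
  have o2 : ∀ i j, (Y i * W i)ᴴ * (W' * Y' j) = 0 := fun i j => by rw [← Matrix.mul_assoc, a2, Matrix.zero_mul]
  have hZ : Dec A _ Z := ⟨by rintro (τ | τ); exacts [c.mul (hd.al τ) (w1 τ), c.mul a1 (hY.al τ)], by
    rintro (i | i) (j | j) ne
    · exact o1 i j (by simpa using ne)
    · exact o2 i j
    · change (W' * Y' i)ᴴ * (Y j * W j) = 0
      simpa using congrArg conjTranspose (o2 j i)
    · change (W' * Y' i)ᴴ * (W' * Y' j) = 0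
      rw [conjTranspose_mul, Matrix.mul_assoc, ← Matrix.mul_assoc W'ᴴ, c.iso a1, Matrix.one_mul,
        hY.orth i j (by simpa using ne)], by simpa using s1⟩
  have hω : ∀ j, Rep A (ω j) := by rintro (τ | τ); exacts [w2 τ, q1 τ]
  obtain ⟨ρ', b1, b2⟩ := asm c hZ ω hω
  refine ⟨ρ', b1, fun d => ?_, fun a ha => ?_⟩
  · rw [i.add Z _ (fun j => ω j ∘ f) hZ (b1.comp f) (fun j => (hω j).comp f) fun j h => b2 j _, Fintype.sum_sum_type,
      ← sum_add_distrib, Finset.sum_apply, Int.cast_sum]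
    refine sum_congr rfl fun τ _ => ?_
    have := pr τ _ _ (w2 τ) ((w3 τ).imp_right And.left) d
    rw [Pi.add_apply, Int.cast_add]
    change (v (σ' τ ∘ f) d : ℚ) + v (π' τ ∘ f) d = _
    rw [this, q2, Nat.cast_sub (fl τ).1]; ring
  · rw [hZ.nn c, Fintype.sum_sum_type, ← sum_add_distrib]
    refine (sum_le_card_nsmul _ _ (9 * (ε / (9 * (Fintype.card T + 1)) * n)) fun τ _ => ?_).trans ?_
    · rw [Matrix.sub_mul, Matrix.sub_mul, b2 (.inl τ) a, b2 (.inr τ) a]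
      have g1 : nn (ρ a * Z (.inl τ) - Z (.inl τ) * ω (.inl τ) a) = nn (σ τ a * W τ - W τ * σ' τ a) := by
        change nn (ρ a * (Y τ * W τ) - Y τ * W τ * σ' τ a) = _
        rw [← Matrix.mul_assoc, (hσ τ).2.2, Matrix.mul_assoc, Matrix.mul_assoc, ← Matrix.mul_sub, nn_l (c.iso (hd.al τ))]
      have g2 := nn_two (c.iso (c.mul (hρ.al a) (hZ.al (.inr τ)))) (c.iso (c.mul (hZ.al (.inr τ)) ((hω (.inr τ)).al a)))
      have g3 : ((Sum.elim y (fun τ => u τ - y τ) (.inr τ) : ℕ) : ℝ) = u τ - y τ := Nat.cast_sub (fl τ).1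
      have := (abs_le.1 (cu τ)).2
      have := mul_le_mul_of_nonneg_right de n0
      have : 0 ≤ δ * n := by positivity
      linarith [w4 τ, w5 τ a ha]
    · rw [nsmul_eq_mul, card_univ]
      have : (Fintype.card T + 1) * (9 * (ε / (9 * (Fintype.card T + 1)) * n)) = ε * n := by field_simp
      have : 0 ≤ 9 * (ε / (9 * (Fintype.card T + 1)) * n) := by positivity
      linarith

end Pool.Agent.H.MP_098da0_al
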