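import Pool.Agent.H.MP_098da0_al.C

open Matrix Finset Filter Topology

namespace Pool.Agent.H.MP_098da0_al

variable {A : Pr} {H D : Type} {G T : Bool → Type} [∀ b, Group (G b)] [Group H] [Fintype H] [∀ b, Fintype (T b)]
  {f : ∀ b, H →* G b} {v : ∀ ⦃n⦄, (H → M n n) → D → ℤ} {Pure : ∀ b, T b → ∀ ⦃n⦄, (G b → M n n) → Prop}

theorem gl1 (c : Cls A) (i : InvAx A v) (s : ∀ b, St A (G b)) (t : ∀ b, TypAx A (f b) v (Pure b)) (F : ∀ b, Finset (G b))
    {ε : ℝ} (e0 : 0 < ε) : ∃ δ > 0, ∀ n (ψ : ∀ b, G b → M n n), 0 < n → (∀ b, Rep A (ψ b)) →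
      ∑ h, nn (ψ true (f true h) - ψ false (f false h)) ≤ δ * n → ∃ ρ : ∀ b, G b → M n n, (∀ b, Rep A (ρ b)) ∧
        v (ρ true ∘ f true) = v (ρ false ∘ f false) ∧ ∀ b, ∀ a ∈ F b, nn (ψ b a - ρ b a) ≤ ε * n := by
  classical
  choose sz r τ0 s0 r0 md using fun b => modif c (s b) i (t b)
  choose δ d0 N md using fun b => md b (F b) ε e0
  obtain ⟨C, C0, lip⟩ := i.lip
  obtain ⟨ε', e1, e2⟩ : ∃ ε' > 0, ∀ b, 2 * ε' ≤ δ b := ⟨min (δ true) (δ false) / 2, half_pos (lt_min (d0 _) (d0 _)), fun b => by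
    cases b <;> simp [mul_div_cancel₀]⟩
  obtain ⟨δ', d1, d, dp, la⟩ := lat (J := Σ b, T b) (D := (D ⊕ Bool) ⊕ Σ b, T b) (Sum.elim (Sum.elim
    (fun e j => (if j.1 then 1 else -1) * r j.1 j.2 e) fun b j => if j.1 = b then 1 else 0)
    fun j' j => if j = j' ∧ sz j.1 j.2 = 0 then 1 else 0) (Sum.elim (Sum.elim 0 1) 0) e1
  let g := ∏ j : Σ b, T b, max (sz j.1 j.2) 1
  have g0 : 0 < d * g := Nat.mul_pos dp (prod_pos fun _ _ => lt_max_of_lt_right one_pos)
  obtain ⟨N', n1, n2⟩ : ∃ N' : ℕ, (∀ b, N b ≤ N') ∧ (d * g : ℕ) ≤ ε' * N' := by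
    obtain ⟨k, hk⟩ := exists_nat_ge ((d * g : ℕ) / ε')
    refine ⟨N true + N false + k, fun b => by cases b <;> omega, ((div_le_iff₀' e1).1 hk).trans ?_⟩
    exact mul_le_mul_of_nonneg_left (by exact_mod_cast Nat.le_add_left _ _) e1.le
  refine ⟨min (δ' ^ 2) (1 / (N' + 1) ^ 2) / C, by positivity, fun n ψ n0 hψ he => ?_⟩
  have np : (0 : ℝ) < n := by exact_mod_cast n0
  have lp : ∀ e, ((v (ψ true ∘ f true) e : ℝ) - v (ψ false ∘ f false) e) ^ 2 ≤ min (δ' ^ 2) (1 / (N' + 1) ^ 2) * n ^ 2 :=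
    fun e => (lip n _ _ ((hψ true).comp _) ((hψ false).comp _) e).trans
      ((mul_le_mul_of_nonneg_left he (by positivity)).trans_eq (by field_simp))
  by_cases hn : n ≤ N'
  · refine ⟨ψ, hψ, funext fun e => ?_, fun b a _ => by simp [nn]; positivity⟩
    have h1 := (lp e).trans (mul_le_mul_of_nonneg_right (min_le_right _ _) (by positivity))
    have h2 : (1 : ℝ) / (N' + 1) ^ 2 * n ^ 2 < 1 := by
      rw [one_div_mul_eq_div, div_lt_one (by positivity)]
      exact pow_lt_pow_left₀ (by exact_mod_cast Nat.lt_succ_of_le hn) np.le two_ne_zero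
    have h3 : (v (ψ true ∘ f true) e - v (ψ false ∘ f false) e) ^ 2 < 1 := by exact_mod_cast h1.trans_lt h2
    nlinarith [sq_nonneg (v (ψ true ∘ f true) e - v (ψ false ∘ f false) e - 1),
      sq_nonneg (v (ψ true ∘ f true) e - v (ψ false ∘ f false) e + 1)]
  choose x x1 x2 x3 x4 using fun b => md b n (ψ b) (hψ b)
  have xn : ∀ b τ, x b τ ≤ n := fun b τ => x1 b ▸ single_le_sum (f := x b) (fun _ _ => Nat.zero_le _) (mem_univ τ)
  obtain ⟨q, q1, q2⟩ := la (fun j => x j.1 j.2 / n) ⟨fun j => by positivity, fun j => (div_le_one np).2 (by exact_mod_cast xn _ _)⟩ (by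
    rintro ((e | b) | j)
    · have a : ∀ b, ∑ τ, (r b τ e : ℝ) * (x b τ / n) = v (ψ b ∘ f b) e / n := fun b => by
        have : (v (ψ b ∘ f b) e : ℝ) = ∑ τ, x b τ * (r b τ e : ℝ) := by exact_mod_cast x3 b e
        rw [this, sum_div]; exact sum_congr rfl fun _ _ => by ring
      simp only [Sum.elim_inl, Fintype.sum_sigma, Fintype.sum_bool, if_true, Bool.false_eq_true, if_false, one_mul, neg_mul,
        Rat.cast_neg, sum_neg_distrib, a, Pi.zero_apply, Rat.cast_zero, sub_zero]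
      rw [← sub_eq_add_neg, ← sub_div, abs_div, abs_of_pos np, div_le_iff₀ np]
      exact abs_le_of_sq_le_sq' ((lp e).trans ((mul_le_mul_of_nonneg_right (min_le_left _ _) (by positivity)).trans_eq
        (by ring))) (by positivity) |> abs_le.2
    · have : ∑ τ, (x b τ : ℝ) / n = 1 := by rw [← sum_div, ← Nat.cast_sum, x1, div_self np.ne']
      cases b <;> simp [Fintype.sum_sigma, this, d1.le]
    · rw [sum_eq_zero fun j' _ => by by_cases e : sz j'.1 j'.2 = 0 <;> simp [e, x2]]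
      simp [d1.le])
  have q3 : ∀ b, ∑ τ, q ⟨b, τ⟩ = d := fun b => by
    have := q1 (.inl (.inr b))
    cases b <;> simp [Fintype.sum_sigma] at this <;> exact_mod_cast this
  have q4 : ∀ b τ, sz b τ = 0 → q ⟨b, τ⟩ = 0 := fun b τ e => by
    have := q1 (.inr ⟨b, τ⟩)
    rw [sum_eq_single ⟨b, τ⟩ (fun j _ ne => by simp [ne]) (by simp)] at this
    simpa [e] using this
  have dm := Nat.div_add_mod n (d * g)
  have rl := Nat.mod_lt n g0
  generalize n / (d * g) = m at dm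
  generalize n % (d * g) = rm at dm rl
  have := fun b => x4 b ((n1 b).trans (not_le.1 hn).le) (fun τ => g * m * q ⟨b, τ⟩ + if τ = τ0 b then rm else 0)
    (by rw [sum_add_distrib, ← mul_sum, q3, ← dm]; simp; ring) (fun τ => by
      by_cases e : τ = τ0 b
      · rw [e, s0]; exact one_dvd _
      by_cases e' : sz b τ = 0
      · simp [e, q4 b τ e']
      rw [if_neg e, add_zero, mul_assoc]
      refine Dvd.dvd.mul_right ?_ _
      have := dvd_prod_of_mem (fun j : Σ b, T b => max (sz j.1 j.2) 1) (mem_univ ⟨b, τ⟩)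
      rwa [max_eq_left (Nat.one_le_iff_ne_zero.2 e')] at this) fun τ => by
    have a1 := q2 ⟨b, τ⟩
    have dR : (0 : ℝ) < d := by exact_mod_cast dp
    have a2 : (q ⟨b, τ⟩ : ℝ) / d ≤ 1 := (div_le_one dR).2 (by
      exact_mod_cast q3 b ▸ single_le_sum (f := fun τ => q ⟨b, τ⟩) (fun _ _ => Nat.zero_le _) (mem_univ τ))
    have a3 : (0 : ℝ) ≤ (q ⟨b, τ⟩ : ℝ) / d := by positivity
    have a4 : (g : ℝ) * m * q ⟨b, τ⟩ = (n - rm) * (q ⟨b, τ⟩ / d) := by rw [← dm]; push_cast; field_simp; ring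
    have a5 : (rm : ℝ) ≤ ε' * n := (Nat.cast_le.2 rl.le).trans (n2.trans
      (mul_le_mul_of_nonneg_left (by exact_mod_cast (not_le.1 hn).le) e1.le))
    have a6 := mul_le_mul_of_nonneg_right (e2 b) np.le
    have a7 : (0 : ℝ) ≤ rm := Nat.cast_nonneg _
    have a8 : |n * ((q ⟨b, τ⟩ : ℝ) / d) - x b τ| ≤ ε' * n := by
      rw [show n * ((q ⟨b, τ⟩ : ℝ) / d) - x b τ = (q ⟨b, τ⟩ / d - x b τ / n) * n by field_simp, abs_mul, abs_of_pos np]
      exact mul_le_mul_of_nonneg_right a1 np.le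
    have a9 := mul_le_mul_of_nonneg_left a2 a7
    have := mul_nonneg a7 a3
    rw [abs_le] at a8 ⊢
    push_cast
    rw [a4]
    split_ifs <;> constructor <;> linarith [a8.1, a8.2]
  choose ρ p1 p2 p3 using this
  refine ⟨ρ, p1, funext fun e => ?_, p3⟩
  have a := q1 (.inl (.inl e))
  simp only [Sum.elim_inl, Fintype.sum_sigma, Fintype.sum_bool, if_true, Bool.false_eq_true, if_false, one_mul, neg_mul,
    sum_neg_distrib, Pi.zero_apply, mul_zero] at a
  have b : ∀ b, (v (ρ b ∘ f b) e : ℚ) = g * m * ∑ τ, r b τ e * q ⟨b, τ⟩ + rm * v (fun _ => (1 : M 1 1)) e := fun b => by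
    rw [p2, mul_sum, ← r0 b]
    simp only [Nat.cast_add, add_mul, sum_add_distrib, Nat.cast_ite, ite_mul, Nat.cast_zero, zero_mul, sum_ite_eq', mem_univ, if_true]
    congr 1; exact sum_congr rfl fun _ _ => by push_cast; ring
  have : (v (ρ true ∘ f true) e : ℚ) = v (ρ false ∘ f false) e := by rw [b, b, add_neg_eq_zero.1 a]
  exact_mod_cast this

theorem gl (c : Cls A) (i : InvAx A v) (s : ∀ b, St A (G b)) (t : ∀ b, TypAx A (f b) v (Pure b)) (F : ∀ b, Finset (G b))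
    {ε : ℝ} (e0 : 0 < ε) : ∃ δ > 0, ∀ n (ψ : ∀ b, G b → M n n), (∀ b, Rep A (ψ b)) →
      ∑ h, nn (ψ true (f true h) - ψ false (f false h)) ≤ δ * n → ∃ ρ : ∀ b, G b → M n n, (∀ b, Rep A (ρ b)) ∧
        (∀ h, ρ true (f true h) = ρ false (f false h)) ∧ ∀ b, ∀ a ∈ F b, nn (ψ b a - ρ b a) ≤ ε * n := by
  classical
  obtain ⟨C, C0, rig⟩ := i.rig
  obtain ⟨ε1, e1, e2⟩ : ∃ ε1 > 0, ε1 * (10 + 8 * (C * (6 * Fintype.card H + 4))) = ε :=
    ⟨ε / (10 + 8 * (C * (6 * Fintype.card H + 4))), by positivity, by field_simp⟩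
  obtain ⟨δ, d0, h⟩ := gl1 c i s t (fun b => F b ∪ univ.image (f b)) e1
  refine ⟨min δ ε1, lt_min d0 e1, fun n ψ hψ he => ?_⟩
  rcases Nat.eq_zero_or_pos n with rfl | n0
  · exact ⟨ψ, hψ, fun _ => Subsingleton.elim _ _, fun _ _ _ => by simp [nn]⟩
  have np : (0 : ℝ) < n := by exact_mod_cast n0
  obtain ⟨ρ, p1, p2, p3⟩ := h n ψ n0 hψ (he.trans (mul_le_mul_of_nonneg_right (min_le_left _ _) np.le))
  obtain ⟨U, u1, u2, u3⟩ := rig n _ _ ((p1 true).comp _) ((p1 false).comp _) p2 (ε1 * n) (by positivity)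
  have a1 : ∑ h, nn ((ρ true ∘ f true) h - (ρ false ∘ f false) h) ≤ (6 * Fintype.card H + 4) * (ε1 * n) := by
    have := he.trans (mul_le_mul_of_nonneg_right (min_le_right _ _) np.le)
    refine (sum_le_sum (g := fun h => 6 * (ε1 * n) + 4 * nn (ψ true (f true h) - ψ false (f false h))) fun h _ => ?_).trans ?_
    · have := fun b => p3 b (f b h) (by simp)
      have := nn_tri (ρ true (f true h)) (ψ true (f true h)) (ρ false (f false h))
      have := nn_tri (ψ true (f true h)) (ψ false (f false h)) (ρ false (f false h))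
      have := nn_comm (ρ true (f true h)) (ψ true (f true h))
      simp only [Function.comp]
      linarith [‹∀ b, nn (ψ b (f b h) - ρ b (f b h)) ≤ _› true, ‹∀ b, nn (ψ b (f b h) - ρ b (f b h)) ≤ _› false]
    · rw [sum_add_distrib, sum_const, ← mul_sum, card_univ, nsmul_eq_mul]; linarith
  have a2 := mul_le_mul_of_nonneg_left a1 C0.le
  have a3 : 0 ≤ C * ((6 * Fintype.card H + 4) * (ε1 * n)) := by positivity
  have a4 : 0 ≤ ε1 * n := by positivity
  refine ⟨fun b => match b with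
    | true => fun a => U * ρ true a * Uᴴ
    | false => ρ false, fun b => ?_, fun h => ?_, fun b a ha => ?_⟩
  · cases b
    · exact p1 false
    · refine ⟨fun a => c.mul (c.mul u1 ((p1 _).al a)) (c.adj u1), fun a b => ?_⟩
      simp only [(p1 _).mul, Matrix.mul_assoc]
      rw [← Matrix.mul_assoc Uᴴ, c.iso u1, Matrix.one_mul]
  · have := u2 h
    simp only [Function.comp] at this ⊢
    rw [← this, Matrix.mul_assoc, c.iso' u1, Matrix.mul_one]
  · have := p3 b a (mem_union_left _ ha)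
    cases b
    · refine this.trans ?_
      rw [← e2]; linarith
    · have b1 := nn_tri (ψ true a) (ρ true a) (U * ρ true a * Uᴴ)
      have b2 : ρ true a - U * ρ true a * Uᴴ = (ρ true a * (U - 1) + -((U - 1) * ρ true a)) * Uᴴ := by
        simp [Matrix.mul_sub, Matrix.sub_mul, Matrix.mul_assoc, c.iso' u1]
      have b3 := nn_r (c.iso (c.adj u1)) (ρ true a * (U - 1) + -((U - 1) * ρ true a))
      have b4 := nn_add (ρ true a * (U - 1)) (-((U - 1) * ρ true a))
      have b5 := nn_r (c.iso ((p1 true).al a)) (U - 1)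
      rw [nn_neg, nn_l (c.iso ((p1 true).al a))] at b4
      rw [b2] at b1
      change nn (ψ true a - U * ρ true a * Uᴴ) ≤ _
      rw [← e2]; linarith

def Z {k : ℕ → ℕ} (X Y : ∀ i, M (k i) (k i)) : Prop := Tendsto (fun i => nn (X i - Y i) / k i) atTop (𝓝 0)

theorem Z.of_le {k : ℕ → ℕ} {X Y : ∀ i, M (k i) (k i)} {a b : ℕ → ℝ} (ha : Tendsto (fun i => a i / k i) atTop (𝓝 0))
    (hb : Tendsto (fun i => b i / k i) atTop (𝓝 0)) (h : ∀ i, nn (X i - Y i) ≤ 2 * a i + 2 * b i) : Z X Y :=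
  squeeze_zero (g := fun i => 2 * (a i / k i) + 2 * (b i / k i)) (fun i => div_nonneg (nn_nonneg _) (Nat.cast_nonneg _)) (fun i =>
    (div_le_div_of_nonneg_right (h i) (Nat.cast_nonneg _)).trans_eq (by ring))
    (by simpa using (ha.const_mul 2).add (hb.const_mul 2))
theorem Z.trans {k : ℕ → ℕ} {X Y W : ∀ i, M (k i) (k i)} (a : Z X Y) (b : Z Y W) : Z X W := .of_le a b fun _ => nn_tri _ _ _
theorem Z.symm {k : ℕ → ℕ} {X Y : ∀ i, M (k i) (k i)} (a : Z X Y) : Z Y X := by simpa only [Z, nn_comm (X _)] using a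
theorem Z.mul (c : Cls A) {k : ℕ → ℕ} {X Y X' Y' : ∀ i, M (k i) (k i)} (a : Z X X') (b : Z Y Y') (h1 : ∀ i, A (Y i))
    (h2 : ∀ i, A (X' i)) : Z (fun i => X i * Y i) fun i => X' i * Y' i := .of_le a b fun i => by
  have := nn_tri (X i * Y i) (X' i * Y i) (X' i * Y' i)
  rw [← Matrix.sub_mul, ← Matrix.mul_sub, nn_l (c.iso (h2 i))] at this
  linarith [nn_r (c.iso (h1 i)) (X i - X' i)]

open Monoid in
theorem amal (c : Cls A) (i : InvAx A v) (s : ∀ b, St A (G b)) (t : ∀ b, TypAx A (f b) v (Pure b)) (fg : ∀ b, Group.FG (G b)) :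
    St A (PushoutI f) := fun k φ h1 h2 => by
  choose F hF using fun b => (fg b).out
  choose ψ p1 p2 using fun b => s b k (fun n a => φ n (PushoutI.of b a)) (fun _ _ => h1 _ _) fun a a' => by simpa using h2 _ _
  let P (n : ℕ) : Set (∀ b, G b → M (k n) (k n)) := {ρ | (∀ b, Rep A (ρ b)) ∧ ∀ h, ρ true (f true h) = ρ false (f false h)}
  let e (n : ℕ) (ρ : ∀ b, G b → M (k n) (k n)) : ℝ := ∑ b, ∑ a ∈ F b, nn (ψ b n a - ρ b a) / k n
  have e0 : ∀ n ρ, 0 ≤ e n ρ := fun n ρ => sum_nonneg fun _ _ => sum_nonneg fun _ _ => div_nonneg (nn_nonneg _) (Nat.cast_nonneg _)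
  choose ρ r1 r2 using fun n => Real.lt_sInf_add_pos (s := e n '' P n) ⟨_, fun _ _ => 1, ⟨fun _ => c.triv, fun _ => rfl⟩, rfl⟩
    (Nat.one_div_pos_of_nat (n := n))
  choose ρ r1 r3 using r1
  have z0 : Tendsto (fun n => (∑ h, nn (ψ true n (f true h) - ψ false n (f false h))) / k n) atTop (𝓝 0) := by
    simp only [sum_div]
    rw [← sum_const_zero (s := (univ : Finset H))]
    refine tendsto_finsetSum _ fun h _ => Z.trans (Z.symm (p2 true _)) ?_
    simpa only [Z, PushoutI.of_apply_eq_base] using p2 false (f false h)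
  have z1 : Tendsto (fun n => e n (ρ n)) atTop (𝓝 0) := by
    refine tendsto_order.2 ⟨fun a ha => .of_forall fun n => ha.trans_le (e0 _ _), fun ε ε0 => ?_⟩
    have sp : 0 < ∑ b, (#(F b) : ℝ) + 1 := add_pos_of_nonneg_of_pos (sum_nonneg fun _ _ => Nat.cast_nonneg _) one_pos
    obtain ⟨ε1, e1, e2⟩ : ∃ ε1 > 0, ε1 * (∑ b, (#(F b) : ℝ) + 1) = ε := ⟨_, div_pos ε0 sp, div_mul_cancel₀ _ sp.ne'⟩
    obtain ⟨δ, d0, h⟩ := gl c i s t F e1
    filter_upwards [z0.eventually (ge_mem_nhds d0), tendsto_one_div_add_atTop_nhds_zero_nat.eventually (ge_mem_nhds e1)] with n a1 a2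
    obtain ⟨σ, b1, b2, b3⟩ := h (k n) (fun b => ψ b n) (fun b => p1 b n) (by
      rcases Nat.eq_zero_or_pos (k n) with z | z
      · rw [sum_eq_zero fun _ _ => nn_empty _ z]; positivity
      · exact (div_le_iff₀ (by exact_mod_cast z)).1 a1)
    have b4 : e n σ ≤ ε1 * ∑ b, (#(F b) : ℝ) := by
      rw [mul_sum]
      exact sum_le_sum fun b _ => (sum_le_card_nsmul _ _ ε1 fun a ha =>
        div_le_of_le_mul₀ (Nat.cast_nonneg _) e1.le (b3 b a ha)).trans_eq (by rw [nsmul_eq_mul, mul_comm])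
    have := csInf_le (s := e n '' P n) ⟨0, by rintro _ ⟨_, _, rfl⟩; exact e0 _ _⟩ ⟨σ, ⟨b1, b2⟩, rfl⟩
    have := r2 n
    rw [r3]; linarith
  have z2 : ∀ b a, Z (fun n => ψ b n a) fun n => ρ n b a := fun b a => by
    have : a ∈ Subgroup.closure (F b : Set (G b)) := hF b ▸ Subgroup.mem_top a
    induction this using Subgroup.closure_induction with
    | mem a ha =>
      refine squeeze_zero (fun i => div_nonneg (nn_nonneg _) (Nat.cast_nonneg _)) (fun n => ?_) z1
      have p : ∀ b a, 0 ≤ nn (ψ b n a - ρ n b a) / k n := fun _ _ => div_nonneg (nn_nonneg _) (Nat.cast_nonneg _)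
      exact (single_le_sum (fun a _ => p b a) ha).trans
        (single_le_sum (f := fun b => ∑ a ∈ F b, nn (ψ b n a - ρ n b a) / k n) (fun b _ => sum_nonneg fun a _ => p b a) (mem_univ b))
    | one => simp [Z, (p1 b _).one c, ((r1 _).1 b).one c, nn]
    | mul a a' _ _ h h' =>
      simpa only [(p1 b _).mul, ((r1 _).1 b).mul] using h.mul c h' (fun n => (p1 b n).al _) fun n => ((r1 n).1 b).al _
    | inv a _ h => simpa only [Z, (p1 b _).inv c, ((r1 _).1 b).inv c, ← conjTranspose_sub, nn_H] using h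
  let hom (n b) : G b →* M (k n) (k n) := { toFun := ρ n b, map_one' := ((r1 n).1 b).one c, map_mul' := ((r1 n).1 b).mul }
  let l (n) : PushoutI f →* M (k n) (k n) := PushoutI.lift (hom n) ((hom n true).comp (f true)) fun b => by
    cases b
    · exact MonoidHom.ext fun h => ((r1 n).2 h).symm
    · rfl
  have al : ∀ n g, A (l n g) := fun n g => PushoutI.induction_on (motive := fun g => A (l n g)) g (fun b a => by simpa [l, hom] using ((r1 n).1 b).al a)
    (fun h => by simpa [l, hom] using ((r1 n).1 true).al _) fun x y a b => by rw [map_mul]; exact c.mul a b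
  have z3 : ∀ b a, Z (fun n => φ n (PushoutI.of b a)) fun n => l n (PushoutI.of b a) := fun b a => by
    simpa [l, hom] using Z.trans (p2 b a) (z2 b a)
  refine ⟨fun n => l n, fun n => ⟨al n, map_mul _⟩, fun g => PushoutI.induction_on (motive := fun g => Z (fun n => φ n g) fun n => l n g) g z3
    (fun h => PushoutI.of_apply_eq_base f true h ▸ z3 true _) fun x y a b => ?_⟩
  simpa only [map_mul, Z] using (Z.symm (h2 x y)).trans (Z.mul c a b (fun n => h1 n y) fun n => al n x)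

end Pool.Agent.H.MP_098da0_al
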