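import Pool.Agent.H.MP_098da0_al.C

open Matrix Finset
open scoped Classical

namespace Pool.Agent.H.MP_098da0_al

variable {n m : ℕ} {G H : Type} [Group G] [Group H]

def AP : Pr := fun n m W => ∃ f : Fin m → Fin n, f.Injective ∧ W = E f

theorem nn_E (f g : Fin m → Fin n) : nn (E f - E g) = 2 * #{j | f j ≠ g j} := by
  rw [nn_eq, card_filter, Nat.cast_sum, mul_sum]
  refine sum_congr rfl fun j _ => ?_
  by_cases e : f j = g j
  · simp [E, e]
  · rw [sum_congr rfl (g := fun i => (if i = f j then 1 else 0) + if i = g j then 1 else 0) fun i _ => by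
      simp only [E, Matrix.sub_apply, of_apply]; split_ifs <;> simp_all]
    simp [sum_add_distrib, e]; norm_num

theorem E_inj {f g : Fin m → Fin n} (h : E f = E g) : f = g := funext fun j => by
  simpa [E] using congrFun (congrFun h (f j)) j

theorem sigInj {J : Type} {m : J → ℕ} {f : ∀ j, Fin (m j) → Fin n} (h1 : ∀ j, (f j).Injective)
    (h2 : ∀ i j, i ≠ j → (E (f i))ᴴ * E (f j) = 0) : Function.Injective fun x : Σ j, Fin (m j) => f x.1 x.2 := by
  rintro ⟨i, x⟩ ⟨j, y⟩ e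
  obtain rfl : i = j := not_not.1 fun ne => by
    have := congrFun (congrFun (h2 i j ne) x) y
    rw [E_H_mul, if_pos e] at this; simp at this
  exact congrArg (Sigma.mk i) (h1 i e)

theorem decP {J : Type} [Fintype J] {m : J → ℕ} {Y : ∀ j, M n (m j)} (h : Dec AP m Y) :
    ∃ e : (Σ j, Fin (m j)) ≃ Fin n, ∀ j, Y j = E fun x => e ⟨j, x⟩ := by
  choose f f1 f2 using h.al
  exact ⟨Equiv.ofBijective _ ((Fintype.bijective_iff_injective_and_card _).2
    ⟨sigInj f1 fun i j ne => by rw [← f2, ← f2, h.orth i j ne], by simp [h.sz]⟩), f2⟩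

theorem clsP : Cls AP where
  iso := by rintro n m _ ⟨f, h, rfl⟩; ext i j; simp [E_H_mul, h.eq_iff, one_apply]
  mul := by rintro n m k _ _ ⟨f, h, rfl⟩ ⟨g, h', rfl⟩; exact ⟨_, h.comp h', E_mul f g⟩
  inj f h := ⟨f, h, rfl⟩
  glue Y Y' h h' := by
    obtain ⟨e, he⟩ := decP h
    obtain ⟨e', he'⟩ := decP h'
    refine ⟨e' ∘ e.symm, e'.injective.comp e.symm.injective, ?_⟩
    ext a b
    obtain ⟨x, rfl⟩ := e.surjective b
    simp only [he, he', Matrix.sum_apply, mul_apply, E, of_apply, conjTranspose_apply, ← Fintype.sum_sigma']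
    rw [sum_eq_single x (fun y _ ne => by simp [ne.symm]) (by simp)]
    simp
  compl := fun {J _ n k m} Y h1 h2 h3 => by
    choose f f1 f2 using h1
    have i := sigInj f1 fun i j ne => by rw [← f2, ← f2, h2 i j ne]
    have c : #(univ.image fun x : Σ j, Fin (m j) => f x.1 x.2)ᶜ = k := by
      rw [card_compl, card_image_of_injective _ i]; simp [← h3]
    refine ⟨_, ⟨_, (orderEmbOfFin _ c).injective, rfl⟩, fun j => ?_⟩
    ext x y
    rw [f2, E_H_mul, if_neg fun e => mem_compl.1 (orderEmbOfFin_mem _ c y) (mem_image.2 ⟨⟨j, x⟩, mem_univ _, e⟩)]; rfl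
  cmp := by
    rintro n m _ _ ⟨w, hw, rfl⟩ ⟨p, hp, rfl⟩
    obtain ⟨g, hg⟩ := Equiv.Perm.exists_extending_pair (f := fun j : {j // ∃ i, w i = p (w j)} => j.1)
      (g := fun j => j.2.choose) Subtype.val_injective fun a b e =>
        Subtype.ext (hw (hp (by rw [← a.2.choose_spec, ← b.2.choose_spec]; exact congrArg w e)))
    refine ⟨_, ⟨g, g.injective, rfl⟩, ?_⟩
    have : #{j | (p ∘ w) j ≠ (w ∘ g) j} ≤ #(univ.image w)ᶜ := card_le_card_of_injOn (p ∘ w) (fun j hj => by
      simp only [coe_compl, coe_image, Set.mem_compl_iff]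
      rintro ⟨i, -, e⟩
      exact (mem_filter.1 hj).2 ((congrArg w (hg ⟨j, i, e⟩)).trans (Exists.choose_spec (⟨i, e⟩ : ∃ i, w i = p (w j)))).symm)
      (hp.comp hw).injOn
    have le : m ≤ n := by simpa using Fintype.card_le_of_injective w hw
    rw [card_compl, card_image_of_injective _ hw, card_univ, Fintype.card_fin, Fintype.card_fin, ← Nat.cast_le (α := ℝ),
      Nat.cast_sub le] at this
    have : (m : ℝ) ≤ n := by exact_mod_cast le
    rw [E_mul, E_mul, nn_E]; linarith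

noncomputable def act (X : M n n) (j : Fin n) : Fin n := if h : ∃ i, X i j = 1 then h.choose else j

theorem act_E (f : Fin n → Fin n) : act (E f) = f := funext fun j => by
  have h : ∃ i, E f i j = 1 := ⟨f j, by simp [E]⟩
  have := h.choose_spec
  rw [act, dif_pos h]; simpa [E] using this

structure Act {X : Type} (a : H → X → X) : Prop where
  one : ∀ x, a 1 x = x
  mul : ∀ g h x, a (g * h) x = a g (a h x)

theorem Rep.eq {ρ : G → M n n} (h : Rep AP ρ) (a : G) : ρ a = E (act (ρ a)) := by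
  obtain ⟨f, -, e⟩ := h.al a; rw [e, act_E]
theorem Rep.act {ρ : G → M n n} (h : Rep AP ρ) : Act fun a => act (ρ a) :=
  ⟨fun x => by simp only [h.one clsP, ← E_id, act_E, id], fun a b x => by
    simp only [h.mul]; rw [h.eq a, h.eq b, E_mul, act_E, act_E, act_E]; rfl⟩
theorem Act.inv {X : Type} {a : H → X → X} (h : Act a) (g x) : a g⁻¹ (a g x) = x := by rw [← h.mul, inv_mul_cancel, h.one]
theorem Act.inj {X : Type} {a : H → X → X} (h : Act a) (g) : (a g).Injective := Function.LeftInverse.injective (h.inv g)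
theorem equiv {ρ : G → M n n} {σ : G → M m m} (h : Rep AP ρ) (h' : Rep AP σ) {w : Fin m → Fin n} {a : G}
    (e : ρ a * E w = E w * σ a) (x) : act (ρ a) (w x) = w (act (σ a) x) := by
  rw [h.eq a, h'.eq a, E_mul, E_mul] at e; exact congrFun (E_inj e) x

section
variable {X : Type} {a b : H → X → X}

def Good (a b : H → X → X) (u : X → X) (S T : Finset X) : Prop := Set.BijOn u S T ∧ ∀ x ∈ S, ∀ h, u (a h x) = b h (u x)
def Inv (a : H → X → X) (S : Finset X) : Prop := ∀ h, ∀ x ∈ S, a h x ∈ S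
def Stb (a : H → X → X) (L : Set H) (x : X) : Prop := ∀ h, a h x = x ↔ h ∈ L
def Cnt (a b : H → X → X) (S T : Finset X) : Prop :=
  ∀ L : Set H, #(S.filter (Stb a L)) = #(T.filter (Stb b L))

theorem extS (ha : Act a) (hb : Act b) {S T S0 T0 : Finset X} {u0 : X → X} (i1 : Inv a S) (i2 : Inv b T) (i3 : Inv a S0)
    (i4 : Inv b T0) (s1 : S0 ⊆ S) (s2 : T0 ⊆ T) (g : Good a b u0 S0 T0) (c : Cnt a b S T)
    (ih : Inv a (S \ S0) → Inv b (T \ T0) → Cnt a b (S \ S0) (T \ T0) → ∃ u, Good a b u (S \ S0) (T \ T0)) :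
    ∃ u, Good a b u S T ∧ ∀ x ∈ S0, u x = u0 x := by
  have d : ∀ {a : H → X → X} {S S0 : Finset X}, Act a → Inv a S → Inv a S0 → Inv a (S \ S0) := fun ha i i' h x hx =>
    mem_sdiff.2 ⟨i h x (mem_sdiff.1 hx).1, fun e => (mem_sdiff.1 hx).2 (ha.inv h x ▸ i' h⁻¹ _ e)⟩
  have sp : ∀ {S S0 : Finset X} (p : X → Prop), S0 ⊆ S → #(S.filter p) = #((S \ S0).filter p) + #(S0.filter p) := fun p s => by
    rw [← card_union_of_disjoint (disjoint_filter_filter sdiff_disjoint), ← filter_union, sdiff_union_of_subset s]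
  obtain ⟨u1, g1⟩ := ih (d ha i1 i3) (d hb i2 i4) fun L => by
    have st : ∀ x ∈ S0, ∀ h, b h (u0 x) = u0 x ↔ a h x = x := fun x hx h => by
      rw [← g.2 x hx h]; exact g.1.injOn.eq_iff (i3 h x hx) hx
    have c0 : #(S0.filter (Stb a L)) = #(T0.filter (Stb b L)) :=
      card_bij (fun x _ => u0 x) (fun x hx => mem_filter.2 ⟨g.1.mapsTo (mem_filter.1 hx).1, fun h => by
        rw [st x (mem_filter.1 hx).1, (mem_filter.1 hx).2]⟩)
        (fun x hx y hy e => g.1.injOn (mem_filter.1 hx).1 (mem_filter.1 hy).1 e) fun y hy => by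
        obtain ⟨x, hx, rfl⟩ := g.1.surjOn (mem_filter.1 hy).1
        exact ⟨x, mem_filter.2 ⟨hx, fun h => by rw [← st x hx, (mem_filter.1 hy).2]⟩, rfl⟩
    have := c L
    rw [sp _ s1, sp _ s2, c0] at this
    convert Nat.add_right_cancel this
  refine ⟨fun x => if x ∈ S0 then u0 x else u1 x, ⟨?_, fun x hx h => ?_⟩, fun x hx => if_pos hx⟩
  · have b0 : Set.BijOn (fun x => if x ∈ S0 then u0 x else u1 x) S0 T0 := g.1.congr fun x hx => (if_pos hx).symm
    have b1 : Set.BijOn (fun x => if x ∈ S0 then u0 x else u1 x) (S \ S0 : Finset X) (T \ T0 : Finset X) :=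
      g1.1.congr fun x hx => (if_neg (mem_sdiff.1 hx).2).symm
    have := b0.union b1 (Set.injOn_union (by simp [Set.disjoint_sdiff_right]) |>.2 ⟨b0.injOn, b1.injOn, fun x hx y hy e =>
      (mem_sdiff.1 (b1.mapsTo hy)).2 (e ▸ b0.mapsTo hx)⟩)
    rwa [← coe_union, ← coe_union, union_sdiff_of_subset s1, union_sdiff_of_subset s2] at this
  · by_cases e : x ∈ S0
    · simp [e, i3 h x e, g.2 x e]
    · simp [e, (mem_sdiff.1 (d ha i1 i3 h x (mem_sdiff.2 ⟨hx, e⟩))).2, g1.2 x (mem_sdiff.2 ⟨hx, e⟩)]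

theorem pe [Fintype H] (ha : Act a) (hb : Act b) (S : Finset X) : ∀ T, Inv a S → Inv b T → Cnt a b S T → ∃ u, Good a b u S T := by
  induction S using Finset.strongInductionOn with
  | _ S ih =>
  intro T i1 i2 c
  rcases S.eq_empty_or_nonempty with rfl | ⟨x, hx⟩
  · obtain rfl : T = ∅ := eq_empty_of_forall_notMem fun y hy => by
      have := c {h | b h y = y}
      rw [filter_empty, card_empty, eq_comm, card_eq_zero, filter_eq_empty_iff] at this
      exact this hy fun _ => Iff.rfl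
    exact ⟨id, by simp, by simp⟩
  obtain ⟨y, hy⟩ := card_pos.1 ((card_pos.2 ⟨x, mem_filter.2 ⟨hx, fun _ => Iff.rfl⟩⟩).trans_eq (c {h | a h x = x}))
  obtain ⟨hy, st⟩ := mem_filter.1 hy
  have k : ∀ g h, a g x = a h x ↔ b g y = b h y := fun g h => by
    have := st (h⁻¹ * g)
    simp only [Set.mem_ofPred_eq, ha.mul, hb.mul] at this
    rw [← (ha.inj h⁻¹).eq_iff, ha.inv, ← this, ← (hb.inj h⁻¹).eq_iff (a := b g y), hb.inv]
  let u0 (z : X) : X := if h : ∃ g, a g x = z then b h.choose y else z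
  have hu : ∀ g, u0 (a g x) = b g y := fun g => by
    have h : ∃ g', a g' x = a g x := ⟨g, rfl⟩
    simp only [u0, dif_pos h]; exact (k _ _).1 h.choose_spec
  have iv : ∀ {a : H → X → X} (x), Act a → Inv a (univ.image (a · x)) := fun x ha h z hz => by
    obtain ⟨g, -, rfl⟩ := mem_image.1 hz
    exact mem_image.2 ⟨h * g, mem_univ _, ha.mul _ _ _⟩
  have sb : ∀ {a : H → X → X} {S x}, Inv a S → x ∈ S → univ.image (a · x) ⊆ S := fun i hx z hz => by
    obtain ⟨g, -, rfl⟩ := mem_image.1 hz; exact i g _ hx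
  refine (extS ha hb (u0 := u0) i1 i2 (iv x ha) (iv y hb) (sb i1 hx) (sb i2 hy) ⟨?_, fun z hz h => ?_⟩ c
    (ih _ (sdiff_ssubset (sb i1 hx) ⟨_, mem_image.2 ⟨1, mem_univ _, rfl⟩⟩) _)).imp fun _ => And.left
  · simp only [coe_image, coe_univ, Set.image_univ]
    refine ⟨?_, ?_, ?_⟩
    · rintro _ ⟨g, rfl⟩; exact ⟨g, (hu g).symm⟩
    · rintro _ ⟨g, rfl⟩ _ ⟨h, rfl⟩ e; rw [hu, hu] at e; exact (k _ _).2 e
    · rintro _ ⟨g, rfl⟩; exact ⟨_, ⟨g, rfl⟩, hu g⟩
  · obtain ⟨g, -, rfl⟩ := mem_image.1 hz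
    rw [← ha.mul, hu, hu, hb.mul]

end

noncomputable def vP ⦃n : ℕ⦄ (α : H → M n n) (L : Set H) : ℤ := #(univ.filter (Stb (fun h => act (α h)) L))

theorem mis [Fintype H] {α β : H → M n n} (h1 : Rep AP α) (h2 : Rep AP β) :
    2 * (#{i | ¬ ∀ h, act (α h) i = act (β h) i} : ℝ) ≤ ∑ h, nn (α h - β h) := by
  rw [sum_congr rfl fun h _ => by rw [h1.eq h, h2.eq h, nn_E], ← mul_sum, ← Nat.cast_sum]
  refine mul_le_mul_of_nonneg_left (Nat.cast_le.2 (le_trans (card_le_card fun i hi => ?_) card_biUnion_le)) two_pos.le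
  simpa using hi

theorem invP [Fintype H] : InvAx AP (vP (H := H)) where
  add Y α β hd h1 h2 h3 := by
    obtain ⟨e, he⟩ := decP hd
    ext L
    simp only [vP, Finset.sum_apply, card_filter, Nat.cast_sum]
    rw [← e.sum_comp, Fintype.sum_sigma]
    refine sum_congr rfl fun j _ => sum_congr rfl fun x _ => ?_
    simp [Stb, fun h => equiv h1 (h2 j) (he j ▸ h3 j h) x]
  lip := ⟨1, one_pos, fun n α β h1 h2 L => by
    have a := mis h1 h2
    have k : ∀ {α β : H → M n n}, (vP α L : ℝ) ≤ vP β L + #{i | ¬ ∀ h, act (α h) i = act (β h) i} := fun {α β} => by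
      simp only [vP, Int.cast_natCast]
      exact_mod_cast le_trans (card_le_card fun i hi => by
        by_cases e : ∀ h, act (α h) i = act (β h) i
        · exact mem_union_left _ (by simpa [e, Stb] using hi)
        · exact mem_union_right _ (mem_filter.2 ⟨mem_univ _, e⟩)) (card_union_le _ _)
    have k1 := k (α := α) (β := β)
    have k2 := k (α := β) (β := α)
    simp only [eq_comm (a := act (β _) _)] at k2
    have k3 : (#{i | ¬ ∀ h, act (α h) i = act (β h) i} : ℝ) ≤ n := by exact_mod_cast (card_le_univ _).trans_eq (by simp)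
    have k4 : (0 : ℝ) ≤ #{i | ¬ ∀ h, act (α h) i = act (β h) i} := Nat.cast_nonneg _
    refine (sq_le_sq' (by linarith) (by linarith : _ ≤ (#{i | ¬ ∀ h, act (α h) i = act (β h) i} : ℝ))).trans ?_
    nlinarith⟩
  rig := ⟨1, one_pos, fun n α β h1 h2 hv η h0 => by
    have iv : ∀ h, ∀ i ∈ ({i | ∀ h, act (α h) i = act (β h) i} : Finset _), act (α h) i ∈
        ({i | ∀ h, act (α h) i = act (β h) i} : Finset _) := fun h i hi => mem_filter.2 ⟨mem_univ _, fun g => by
      have := (mem_filter.1 hi).2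
      rw [← h1.act.mul, this, h2.act.mul, ← this]⟩
    obtain ⟨u, ⟨u1, u2⟩, u3⟩ := extS h1.act h2.act (S := univ) (T := univ) (u0 := id) (fun _ _ _ => mem_univ _)
      (fun _ _ _ => mem_univ _) iv (fun h i hi => (mem_filter.1 hi).2 h ▸ iv h i hi) (subset_univ _) (subset_univ _)
      ⟨Set.bijOn_id _, fun i hi => (mem_filter.1 hi).2⟩ (fun L => by
        have := congrFun hv L
        simp only [vP, Nat.cast_inj] at this
        convert this) fun a b c => pe h1.act h2.act _ _ (by convert a) (by convert b) (by convert c) |>.imp fun _ h => by convert h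
    refine ⟨E u, ⟨u, fun x y => u1.injOn (by simp) (by simp), rfl⟩, fun h => ?_, ?_⟩
    · rw [h1.eq h, h2.eq h, E_mul, E_mul]; congr 1; exact funext fun x => (u2 x (mem_univ _) h).symm
    · have : #{j | u j ≠ id j} ≤ #{i | ¬ ∀ h, act (α h) i = act (β h) i} := card_le_card fun i hi =>
        mem_filter.2 ⟨mem_univ _, fun e => (mem_filter.1 hi).2 (u3 i (mem_filter.2 ⟨mem_univ _, e⟩))⟩
      have := (Nat.cast_le (α := ℝ)).2 this
      rw [← E_id, nn_E]; linarith [mis h1 h2]⟩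

end Pool.Agent.H.MP_098da0_al
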