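import Pool.Agent.H.MP_098da0_al.P

open Matrix Finset
open scoped Classical

namespace Pool.Agent.H.MP_098da0_al

variable {G H : Type} [Group G] [Group H]

theorem typP (f : H →* G) (C : Finset G) (h1 : ∀ h, f h ∈ C) (h2 : ∀ g, ∀ c ∈ C, g * c * g⁻¹ ∈ C) :
    ∃ (T : Type) (_ : Fintype T) (Pure : T → ∀ ⦃n⦄, (G → M n n) → Prop), TypAx AP f vP Pure := by
  let fx {n} (ρ : G → M n n) (i : Fin n) : Finset G := C.filter fun c => act (ρ c) i = i
  let cj (g : G) (S : Finset G) : Finset G := C.filter fun c => g⁻¹ * c * g ∈ S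
  let ty (S : Finset G) : C.powerset.powerset := ⟨C.powerset.filter fun S' => ∃ g, S' = cj g S, mem_powerset.2 (filter_subset _ _)⟩
  have h3 : ∀ g, ∀ c ∈ C, g⁻¹ * c * g ∈ C := fun g c hc => by simpa using h2 g⁻¹ c hc
  have a1 : ∀ {n} {ρ : G → M n n}, Rep AP ρ → ∀ g i, fx ρ (act (ρ g) i) = cj g (fx ρ i) := fun h g i =>
    filter_congr fun c hc => by
      simp only [fx, mem_filter, h3 g c hc, true_and, h.act.mul]
      rw [← (h.act.inj g⁻¹).eq_iff, h.act.inv]
  have a2 : ∀ g g' S, cj g (cj g' S) = cj (g * g') S := fun g g' S => filter_congr fun c hc => by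
    simp only [cj, mem_filter, h3 g c hc, true_and]
    simp only [_root_.mul_inv_rev, mul_assoc]
  have a3 : ∀ g S, ty (cj g S) = ty S := fun g S => Subtype.ext (filter_congr fun S' _ =>
    ⟨fun ⟨g', e⟩ => ⟨_, e.trans (a2 _ _ _)⟩, fun ⟨g', e⟩ => ⟨g' * g⁻¹, by rw [a2, inv_mul_cancel_right, e]⟩⟩)
  refine ⟨C.powerset.powerset, inferInstance, fun τ n ρ => ∀ i, ty (fx ρ i) = τ, fun n ρ h => ?_,
    ⟨C, 1, one_pos, fun τ τ' ne n m ρ σ W r1 r2 p1 p2 ⟨w, _, hw⟩ => ?_⟩, fun τ n m ρ σ r1 r2 p1 p2 L => ?_⟩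
  · let e (τ : C.powerset.powerset) := orderEmbOfFin (univ.filter fun i => ty (fx ρ i) = τ) rfl
    have e1 : ∀ τ x, ty (fx ρ (e τ x)) = τ := fun τ x => (mem_filter.1 (orderEmbOfFin_mem _ rfl x)).2
    have : ∀ τ a x, ∃ y, e τ y = act (ρ a) (e τ x) := fun τ a x => by
      change _ ∈ Set.range (e τ)
      rw [range_orderEmbOfFin]
      exact mem_filter.2 ⟨mem_univ _, by rw [a1 h, a3, e1]⟩
    choose p hp using this
    refine ⟨_, fun τ => E (e τ), fun τ a => E (p τ a), ⟨fun τ => ⟨_, (e τ).injective, rfl⟩, fun τ τ' ne => ?_, ?_⟩,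
      fun τ => ⟨⟨fun a => ⟨_, fun x y e' => (e τ).injective (h.act.inj a ?_), rfl⟩, fun a b => ?_⟩, fun x => ?_, fun a => ?_⟩⟩
    · ext x y
      rw [E_H_mul, if_neg fun e' => ne (by rw [← e1 τ x, e', e1])]; rfl
    · rw [← card_eq_sum_card_fiberwise fun _ _ => mem_univ _]; simp
    · simp only [← hp, e']
    · rw [E_mul]
      refine congrArg E (funext fun x => (e τ).injective ?_)
      rw [Function.comp_apply, hp, hp, hp]; exact h.act.mul a b _
    · refine Eq.trans (congrArg ty ?_) (e1 τ x)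
      exact filter_congr fun c _ => by rw [act_E, ← hp, (e τ).injective.eq_iff]
    · rw [h.eq a, E_mul, E_mul]; congr 1; exact funext fun x => (hp τ a x).symm
  · rw [one_mul, hw, sum_congr rfl fun a _ => by rw [r1.eq a, r2.eq a, E_mul, E_mul, nn_E], ← mul_sum, ← Nat.cast_sum]
    have : #(univ : Finset (Fin m)) ≤ ∑ a ∈ C, #{j | (act (ρ a) ∘ w) j ≠ (w ∘ act (σ a)) j} :=
      le_trans (card_le_card fun j _ => by
        by_contra hn
        simp only [mem_biUnion, mem_filter, mem_univ, true_and, not_exists, not_and, not_not, Function.comp] at hn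
        refine ne ((p1 (w j)).symm.trans (Eq.trans ?_ (p2 j)))
        congr 1
        exact filter_congr fun c hc => by rw [hn c hc, ‹w.Injective›.eq_iff]) card_biUnion_le
    rw [card_univ, Fintype.card_fin] at this
    have := (Nat.cast_le (α := ℝ)).2 this
    linarith [Nat.cast_nonneg (α := ℝ) m]
  · have k : ∀ {n} {ρ : G → M n n}, Rep AP ρ → (∀ i, ty (fx ρ i) = τ) → (∀ S ∈ τ.1, n = #τ.1 * #{i | fx ρ i = S}) ∧
        vP (ρ ∘ f) L = ∑ S ∈ τ.1 with ∀ h, f h ∈ S ↔ h ∈ L, (#{i | fx ρ i = S} : ℤ) := fun {n ρ} r p => by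
      have m1 : ∀ i, fx ρ i ∈ τ.1 := fun i => p i ▸ mem_filter.2 ⟨mem_powerset.2 (filter_subset _ _), 1,
        filter_congr fun c hc => by simp [fx, hc]⟩
      have le : ∀ S ∈ τ.1, ∀ S' ∈ τ.1, #{i | fx ρ i = S} ≤ #{i | fx ρ i = S'} := fun S _ S' hS' => by
        rcases ({i | fx ρ i = S} : Finset _).eq_empty_or_nonempty with e | ⟨i, hi⟩
        · simp [e]
        rw [← p i, (mem_filter.1 hi).2] at hS'
        obtain ⟨g, rfl⟩ := (mem_filter.1 hS').2
        exact card_le_card_of_injOn (act (ρ g)) (fun j hj => mem_filter.2 ⟨mem_univ _, by rw [a1 r, (mem_filter.1 hj).2]⟩)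
          (r.act.inj g).injOn
      refine ⟨fun S hS => ?_, ?_⟩
      · have := card_eq_sum_card_fiberwise (s := univ) (t := τ.1) (f := fx ρ) fun i _ => m1 i
        rw [card_univ, Fintype.card_fin, sum_congr rfl fun S' h' => le_antisymm (le S' h' S hS) (le S hS S' h')] at this
        simpa using this
      · rw [vP, ← Nat.cast_sum, card_eq_sum_card_fiberwise (t := τ.1.filter fun S => ∀ h, f h ∈ S ↔ h ∈ L) (f := fx ρ)
          fun i hi => mem_filter.2 ⟨m1 i, fun h => by simpa [fx, h1] using (mem_filter.1 hi).2 h⟩]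
        congr 1
        refine sum_congr rfl fun S hS => ?_
        rw [filter_filter]
        congr 1
        refine filter_congr fun i _ => ⟨And.right, fun e => ⟨fun h => ?_, e⟩⟩
        simpa [← e, fx, h1] using (mem_filter.1 hS).2 h
    rw [(k r1 p1).2, (k r2 p2).2, mul_sum, mul_sum]
    refine sum_congr rfl fun S hS => ?_
    have b1 := (k r1 p1).1 S (mem_filter.1 hS).1
    have b2 := (k r2 p2).1 S (mem_filter.1 hS).1
    generalize #{i | fx ρ i = S} = x at *
    generalize #{i | fx σ i = S} = y at *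
    rw [b1, b2]; push_cast; ring

end Pool.Agent.H.MP_098da0_al
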