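import Pool.Agent.H.MP_098da0_al.C

open Matrix Finset
open scoped ComplexOrder Classical

namespace Pool.Agent.H.MP_098da0_al

variable {n m k : ℕ} {H : Type} [Group H]

def AU : Pr := fun _ _ W => Wᴴ * W = 1

theorem ker {Y : M n n} (hY : Y.IsHermitian) :
    ∃ m, ∃ V : M n m, Vᴴ * V = 1 ∧ Y * V = 0 ∧ ∀ k (Z : M n k), Y * Z = 0 → V * (Vᴴ * Z) = Z := by
  obtain ⟨U, d, u1, u2, e⟩ : ∃ (U : M n n) (d : Fin n → ℂ), Uᴴ * U = 1 ∧ U * Uᴴ = 1 ∧ Y = U * diagonal d * Uᴴ :=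
    ⟨hY.eigenvectorUnitary, _, hY.eigenvectorUnitary.2.1, hY.eigenvectorUnitary.2.2, hY.spectral_theorem⟩
  let f := orderEmbOfFin (univ.filter fun i => d i = 0) rfl
  have f1 : ∀ x, d (f x) = 0 := fun x => (mem_filter.1 (orderEmbOfFin_mem _ rfl x)).2
  have c : ∀ {k} (X : M n k), Uᴴ * (U * X) = X := fun X => by rw [← Matrix.mul_assoc, u1, Matrix.one_mul]
  refine ⟨_, U * E f, ?_, ?_, fun k Z h => ?_⟩
  · rw [conjTranspose_mul, Matrix.mul_assoc, c]
    ext i j; simp [E_H_mul, one_apply]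
  · rw [e, Matrix.mul_assoc, c, Matrix.mul_assoc]
    have : diagonal d * E f = 0 := by ext i j; by_cases h : i = f j <;> simp [E, h, f1]
    rw [this, Matrix.mul_zero]
  · have h2 := congrArg (Uᴴ * ·) h
    simp only [e, Matrix.mul_assoc, c, Matrix.mul_zero] at h2
    have : E f * ((E f)ᴴ * (Uᴴ * Z)) = Uᴴ * Z := by
      generalize Uᴴ * Z = Z' at h2
      ext i j
      by_cases h : d i = 0
      · obtain ⟨x, rfl⟩ : i ∈ Set.range f := by rw [range_orderEmbOfFin]; simpa using h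
        simp [E, mul_apply, apply_ite]
      · have a : Z' i j = 0 := by simpa [h] using congrFun (congrFun h2 i) j
        have b : ∀ x, i ≠ f x := fun x e => h (e ▸ f1 x)
        simp [E, mul_apply, a, b]
    rw [conjTranspose_mul, Matrix.mul_assoc, Matrix.mul_assoc, this, ← Matrix.mul_assoc, u2, Matrix.one_mul]

theorem cpl {P : M n n} (h1 : Pᴴ = P) (h2 : P * P = P) :
    ∃ k, ∃ W : M n k, Wᴴ * W = 1 ∧ P * W = 0 ∧ P + W * Wᴴ = 1 ∧ trace P + k = n := by
  obtain ⟨k, W, w1, w2, w3⟩ := ker (Y := P) h1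
  have a := w3 _ (1 - P) (by simp [Matrix.mul_sub, h2])
  have b : Wᴴ * P = 0 := by simpa [h1] using congrArg conjTranspose w2
  rw [Matrix.mul_sub, b, Matrix.mul_one, sub_zero] at a
  have c : P + W * Wᴴ = 1 := by rw [a]; simp
  refine ⟨k, W, w1, w2, c, ?_⟩
  have := congrArg trace c
  rw [trace_add, trace_mul_comm, w1] at this
  simpa using this

theorem Rep.oneU {α : H → M n n} (h : Rep AU α) : α 1 = 1 := by
  have := congrArg ((α 1)ᴴ * ·) (h.mul 1 1)
  simp only [mul_one, ← Matrix.mul_assoc, show (α 1)ᴴ * α 1 = 1 from h.al 1, Matrix.one_mul] at this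
  exact this.symm

theorem Rep.invU {α : H → M n n} (h : Rep AU α) (a : H) : α a⁻¹ = (α a)ᴴ := by
  have := congrArg ((α a)ᴴ * ·) (h.mul a a⁻¹)
  simp only [mul_inv_cancel, h.oneU, ← Matrix.mul_assoc, show (α a)ᴴ * α a = 1 from h.al a, Matrix.one_mul,
    Matrix.mul_one] at this
  exact this.symm

theorem res {α : H → M n n} (h : Rep AU α) {W : M n k} (w : Wᴴ * W = 1) (c : ∀ a, α a * (W * Wᴴ) = W * Wᴴ * α a) :
    Rep AU (fun a => Wᴴ * α a * W) ∧ ∀ a, α a * W = W * (Wᴴ * α a * W) := by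
  have e : ∀ a, α a * W = W * (Wᴴ * α a * W) := fun a => by
    rw [← Matrix.mul_assoc, ← Matrix.mul_assoc, ← c, Matrix.mul_assoc, Matrix.mul_assoc, w, Matrix.mul_one]
  refine ⟨⟨fun a => ?_, fun a b => ?_⟩, e⟩
  · have : (W * (Wᴴ * α a * W))ᴴ * (W * (Wᴴ * α a * W)) = 1 := by
      rw [← e, conjTranspose_mul, Matrix.mul_assoc, ← Matrix.mul_assoc (α a)ᴴ, show (α a)ᴴ * α a = 1 from h.al a,
        Matrix.one_mul, w]
    rwa [conjTranspose_mul, Matrix.mul_assoc, ← Matrix.mul_assoc Wᴴ, w, Matrix.one_mul] at this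
  · rw [h.mul, Matrix.mul_assoc (Wᴴ * α a), ← e]; simp only [Matrix.mul_assoc]

theorem split {α : H → M n n} (h : Rep AU α) {V : M n m} (v : Vᴴ * V = 1) {γ : H → M m m} (e : ∀ a, α a * V = V * γ a) :
    ∃ k, ∃ (W : M n k) (δ : H → M k k), Wᴴ * W = 1 ∧ Vᴴ * W = 0 ∧ V * Vᴴ + W * Wᴴ = 1 ∧ m + k = n ∧ Rep AU δ ∧
      (∀ a, α a * W = W * δ a) ∧ ∀ a, trace (α a) = trace (γ a) + trace (δ a) := by
  have v' : ∀ {k} (X : M m k), Vᴴ * (V * X) = X := fun X => by rw [← Matrix.mul_assoc, v, Matrix.one_mul]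
  obtain ⟨k, W, w1, w2, w3, w4⟩ := cpl (P := V * Vᴴ) (by simp) (by rw [Matrix.mul_assoc, v'])
  have q : ∀ a, V * Vᴴ * α a * (V * Vᴴ) = α a * (V * Vᴴ) := fun a => by
    rw [Matrix.mul_assoc, ← Matrix.mul_assoc (α a), e]; simp only [Matrix.mul_assoc, v']
  have c : ∀ a, α a * (V * Vᴴ) = V * Vᴴ * α a := fun a => by
    have := congrArg conjTranspose (q a⁻¹)
    simp only [conjTranspose_mul, conjTranspose_conjTranspose, h.invU, ← Matrix.mul_assoc] at this
    rw [← q, ← Matrix.mul_assoc, this]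
  obtain ⟨r1, r2⟩ := res h w1 fun a => by
    rw [eq_sub_of_add_eq' w3, Matrix.mul_sub, Matrix.sub_mul, c, Matrix.mul_one, Matrix.one_mul]
  refine ⟨k, W, _, w1, ?_, w3, ?_, r1, r2, fun a => ?_⟩
  · rw [← v' (Vᴴ * W), ← Matrix.mul_assoc V, w2, Matrix.mul_zero]
  · rw [trace_mul_comm, v, trace_one, Fintype.card_fin] at w4; exact_mod_cast w4
  · conv_lhs => rw [← Matrix.mul_one (α a), ← w3, Matrix.mul_add, trace_add, ← Matrix.mul_assoc, ← Matrix.mul_assoc, e,
      trace_mul_comm, v', trace_mul_comm, ← Matrix.mul_assoc]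

theorem avg [Fintype H] {α β : H → M n n} (h1 : Rep AU α) (h2 : Rep AU β) (Z : M n n) (a : H) :
    β a * ∑ h, β h * Z * (α h)ᴴ = (∑ h, β h * Z * (α h)ᴴ) * α a := by
  rw [Matrix.mul_sum, Matrix.sum_mul]
  refine sum_equiv (Equiv.mulLeft a) (by simp) fun h _ => ?_
  simp only [Equiv.coe_mulLeft, ← h1.invU, Matrix.mul_assoc, ← h1.mul, h2.mul a h]
  simp

theorem polg [Fintype H] (n : ℕ) : ∀ (α β : H → M n n), Rep AU α → Rep AU β → (∀ a, trace (α a) = trace (β a)) →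
    ∀ A : M n n, (∀ a, β a * A = A * α a) → ∃ U : M n n, Uᴴ * U = 1 ∧ (∀ a, β a * U = U * α a) ∧ (Uᴴ * A).PosSemidef := by
  induction n using Nat.strong_induction_on with | _ n ih => ?_
  intro α β h1 h2 tr
  suffices key : ∀ A : M n n, A ≠ 0 → (∀ a, β a * A = A * α a) →
      ∃ U : M n n, Uᴴ * U = 1 ∧ (∀ a, β a * U = U * α a) ∧ (Uᴴ * A).PosSemidef by
    intro A hA
    by_cases z : A = 0
    swap
    · exact key A z hA
    by_cases z2 : ∀ Z : M n n, ∑ h, β h * Z * (α h)ᴴ = 0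
    · have a : ∑ h, (Complex.normSq (trace (α h)) : ℂ) = 0 := by
        have : ∑ i, ∑ j, (∑ h, β h * single i j 1 * (α h)ᴴ : M n n) i j = 0 := by simp [z2]
        rw [← this]
        simp only [Matrix.sum_apply]
        rw [sum_congr rfl fun i _ => sum_comm, sum_comm]
        refine sum_congr rfl fun h _ => ?_
        rw [← Complex.mul_conj]
        conv_lhs => enter [1]; rw [tr]
        simp [trace, sum_mul_sum, mul_apply, single, ite_and]
      have a' : ∑ h, Complex.normSq (trace (α h)) = 0 := by exact_mod_cast a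
      have b := (sum_eq_zero_iff_of_nonneg fun _ _ => Complex.normSq_nonneg _).1 a' 1 (mem_univ _)
      rw [h1.oneU] at b
      obtain rfl : n = 0 := by simpa using b
      exact ⟨1, by simp, fun a => Subsingleton.elim _ _, by rw [z, Matrix.mul_zero]; exact .zero⟩
    · obtain ⟨Z, hZ⟩ := not_forall.1 z2
      obtain ⟨U, u1, u2, -⟩ := key _ hZ (avg h1 h2 Z)
      exact ⟨U, u1, u2, by rw [z, Matrix.mul_zero]; exact .zero⟩
  intro A z hA
  have c : ∀ a, Aᴴ * A * α a = α a * (Aᴴ * A) := fun a => by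
    have := congrArg conjTranspose (hA a⁻¹)
    simp only [conjTranspose_mul, conjTranspose_conjTranspose, h1.invU, h2.invU] at this
    rw [Matrix.mul_assoc, ← hA, ← Matrix.mul_assoc, this, Matrix.mul_assoc]
  obtain ⟨x, t, t0, x0, hx⟩ := (isHermitian_conjTranspose_mul_self A).exists_eigenvector_of_ne_zero
    fun e => z (conjTranspose_mul_self_eq_zero.1 e)
  obtain ⟨m, V, v1, v2, v3⟩ := ker (Y := Aᴴ * A - (t : ℂ) • 1) (by simp [IsHermitian])
  rw [Matrix.sub_mul, sub_eq_zero, Matrix.smul_mul, Matrix.one_mul] at v2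
  have m0 : m ≠ 0 := by
    rintro rfl
    have := v3 1 (replicateCol (Fin 1) x) (by
      rw [← replicateCol_mulVec, sub_mulVec, hx, smul_mulVec]; ext; simp)
    exact x0 (funext fun i => by simpa [mul_apply] using (congrFun (congrFun this i) 0).symm)
  have v4 : (A * V)ᴴ * (A * V) = (t : ℂ) • 1 := by
    rw [conjTranspose_mul, Matrix.mul_assoc, ← Matrix.mul_assoc Aᴴ, v2, Matrix.mul_smul, v1]
  have t1 : 0 < t := by
    have := nn_nonneg (A * V)
    rw [nn, v4] at this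
    simp at this
    exact lt_of_le_of_ne (nonneg_of_mul_nonneg_left this (by positivity)) t0.symm
  obtain ⟨s, s0, rfl⟩ : ∃ s > 0, t = s * s := ⟨√t, Real.sqrt_pos.2 t1, (Real.mul_self_sqrt t1.le).symm⟩
  have s1 : (s : ℂ) ≠ 0 := by exact_mod_cast s0.ne'
  obtain ⟨V', a1⟩ : ∃ V' : M n m, A * V = (s : ℂ) • V' := ⟨(s : ℂ)⁻¹ • (A * V), by rw [smul_inv_smul₀ s1]⟩
  have a2 : V'ᴴ * V' = 1 := by
    rw [a1, conjTranspose_smul, Matrix.smul_mul, Matrix.mul_smul, smul_smul] at v4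
    exact smul_right_injective _ (mul_ne_zero s1 s1) (by simpa using v4)
  have e1 : ∀ a, α a * V = V * (Vᴴ * (α a * V)) := fun a => (v3 _ _ (by
    rw [← Matrix.mul_assoc, Matrix.sub_mul, c, Matrix.sub_mul, Matrix.mul_assoc, v2]; simp)).symm
  have e2 : ∀ a, β a * V' = V' * (Vᴴ * (α a * V)) := fun a => smul_right_injective _ s1 (by
    beta_reduce
    rw [← Matrix.mul_smul, ← Matrix.smul_mul, ← a1, ← Matrix.mul_assoc, hA, Matrix.mul_assoc, Matrix.mul_assoc, ← e1])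
  obtain ⟨k, W, δ, w1, w2, w3, w4, w5, w6, w7⟩ := split h1 v1 e1
  obtain ⟨k', W', δ', w1', w2', w3', w4', w5', w6', w7'⟩ := split h2 a2 e2
  obtain rfl : k = k' := by omega
  have w8 : ∀ a, W'ᴴ * β a = δ' a * W'ᴴ := fun a => by
    simpa [h2.invU, w5'.invU] using congrArg conjTranspose (w6' a⁻¹)
  have w9 : ∀ a, Wᴴ * α a = δ a * Wᴴ := fun a => by
    simpa [h1.invU, w5.invU] using congrArg conjTranspose (w6 a⁻¹)
  obtain ⟨U, u1, u2, u3⟩ := ih k (by omega) δ δ' w5 w5' (fun a => add_left_cancel ((w7 a).symm.trans ((tr a).trans (w7' a))))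
    (W'ᴴ * A * W) fun a => by
      rw [← Matrix.mul_assoc, ← Matrix.mul_assoc, ← w8, Matrix.mul_assoc _ (β a), hA]; simp only [Matrix.mul_assoc, w6]
  have ex : ∀ X Y : M n n, X * V = Y * V → X * W = Y * W → X = Y := fun X Y p q => by
    rw [← Matrix.mul_one X, ← Matrix.mul_one Y, ← w3]; simp only [Matrix.mul_add, ← Matrix.mul_assoc, p, q]
  have b1 : Wᴴ * V = 0 := by simpa using congrArg conjTranspose w2
  have b2 : W'ᴴ * V' = 0 := by simpa using congrArg conjTranspose w2'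
  have b3 : V'ᴴ * (A * W) = 0 := smul_right_injective _ s1 (by
    have := congrArg (·ᴴ * (A * W)) a1
    simp only [conjTranspose_smul, Matrix.smul_mul, Complex.star_def, Complex.conj_ofReal] at this
    have e := congrArg (·ᴴ * W) v2
    simp only [conjTranspose_smul, Matrix.smul_mul, w2, smul_zero, conjTranspose_mul, conjTranspose_conjTranspose] at e
    beta_reduce
    rw [← this, smul_zero, ← e, conjTranspose_mul]; simp only [Matrix.mul_assoc])
  obtain ⟨X, x1⟩ : ∃ X, X = V' * Vᴴ + W' * U * Wᴴ := ⟨_, rfl⟩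
  have x2 : X * V = V' := by simp [x1, Matrix.add_mul, Matrix.mul_assoc, v1, b1]
  have x3 : X * W = W' * U := by simp [x1, Matrix.add_mul, Matrix.mul_assoc, w1, w2]
  have x4 : Xᴴ * V' = V := by simp [x1, Matrix.add_mul, Matrix.mul_assoc, a2, b2]
  have x5 : Xᴴ * W' = W * Uᴴ := by simp [x1, Matrix.add_mul, Matrix.mul_assoc, w1', w2']
  refine ⟨X, ex _ _ ?_ ?_, fun a => ex _ _ ?_ ?_, ?_⟩
  · rw [Matrix.mul_assoc, x2, x4, Matrix.one_mul]
  · rw [Matrix.mul_assoc, x3, ← Matrix.mul_assoc, x5, Matrix.mul_assoc, u1, Matrix.one_mul, Matrix.mul_one]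
  · rw [Matrix.mul_assoc, x2, e2, Matrix.mul_assoc, ← x2, Matrix.mul_assoc, ← e1]
  · rw [Matrix.mul_assoc, x3, Matrix.mul_assoc, w6, ← Matrix.mul_assoc, ← Matrix.mul_assoc, x3, w6', Matrix.mul_assoc,
      Matrix.mul_assoc, u2]
  · rw [ex (Xᴴ * A) ((s : ℂ) • (V * Vᴴ) + W * (Uᴴ * (W'ᴴ * A * W)) * Wᴴ)
      (by simp [Matrix.add_mul, Matrix.mul_assoc, a1, x4, v1, b1])
      (by simp [x1, Matrix.add_mul, Matrix.mul_assoc, b3, w1, w2])]
    exact ((posSemidef_self_mul_conjTranspose V).smul (by exact_mod_cast s0.le)).add (u3.mul_mul_conjTranspose_same W)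

end Pool.Agent.H.MP_098da0_al
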