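import Pool.Agent.H.MP_098da0_al.U

open Matrix Finset
open scoped ComplexOrder Classical

namespace Pool.Agent.H.MP_098da0_al

variable {n m k : ℕ} {H : Type} [Group H]

theorem nn_sub (X Y : M n m) : nn (X - Y) = nn X + nn Y - 2 * (trace (Yᴴ * X)).re := by
  have : (trace (Xᴴ * Y)).re = (trace (Yᴴ * X)).re := by
    rw [← Complex.conj_re, ← Complex.star_def, ← trace_conjTranspose]; simp
  simp only [nn, conjTranspose_sub, Matrix.sub_mul, Matrix.mul_sub, trace_sub, Complex.sub_re, this]; ring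

theorem pol1 {U A : M n n} (u : Uᴴ * U = 1) (p : (Uᴴ * A).PosSemidef) : nn (A - U) ≤ nn (A - 1) := by
  have u' : U * Uᴴ = 1 := mul_eq_one_comm.1 u
  have a : U * (Uᴴ * A) = A := by rw [← Matrix.mul_assoc, u', Matrix.one_mul]
  have b : Uᴴ * A * Uᴴ = Aᴴ := by rw [← p.1.eq, ← conjTranspose_mul, a]
  have := (Complex.nonneg_iff.1 (p.mul_mul_conjTranspose_same (1 - U)).trace_nonneg).1
  rw [conjTranspose_sub, conjTranspose_one, Matrix.mul_sub, Matrix.mul_one, Matrix.sub_mul, Matrix.sub_mul, Matrix.one_mul, b, a,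
    trace_sub, trace_sub, trace_sub, trace_mul_comm A, trace_conjTranspose] at this
  rw [nn_sub, nn_sub, nn_iso u, nn_iso (W := 1) (by simp)]
  simp at this ⊢
  linarith

theorem pol2 {U A : M n n} (u : Uᴴ * U = 1) (p : (Uᴴ * A).PosSemidef) : nn (A - U) ≤ nn (1 - Aᴴ * A) := by
  have u' : U * Uᴴ = 1 := mul_eq_one_comm.1 u
  have a : U * (Uᴴ * A) = A := by rw [← Matrix.mul_assoc, u', Matrix.one_mul]
  generalize Uᴴ * A = P at *
  subst a
  have h := p.1.eq
  have := (Complex.nonneg_iff.1 ((p.add (p.add (posSemidef_conjTranspose_mul_self P))).conjTranspose_mul_mul_same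
    (P - 1)).trace_nonneg).1
  rw [show U * P - U = U * (P - 1) by rw [Matrix.mul_sub, Matrix.mul_one], nn_l u, conjTranspose_mul, Matrix.mul_assoc,
    ← Matrix.mul_assoc Uᴴ, u, Matrix.one_mul, nn, nn, show (1 - Pᴴ * P)ᴴ * (1 - Pᴴ * P) =
      (P - 1)ᴴ * (P - 1) + (P - 1)ᴴ * (P + (P + Pᴴ * P)) * (P - 1) by
        simp only [conjTranspose_sub, conjTranspose_one, conjTranspose_mul, h]; noncomm_ring, trace_add, Complex.add_re]
  linarith

theorem cplU {J : Type} [Fintype J] {m : J → ℕ} {Y : ∀ j, M n (m j)} (h1 : ∀ j, AU (Y j))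
    (h2 : ∀ i j, i ≠ j → (Y i)ᴴ * Y j = 0) (h3 : ∑ j, m j + k = n) :
    ∃ W : M n k, AU W ∧ (∀ j, (Y j)ᴴ * W = 0) ∧ ∑ j, Y j * (Y j)ᴴ + W * Wᴴ = 1 := by
  obtain ⟨a, b, c⟩ := projs h1 h2
  have d : (∑ j, Y j * (Y j)ᴴ)ᴴ = ∑ j, Y j * (Y j)ᴴ := by simp [conjTranspose_sum]
  obtain ⟨k', W, w1, w2, w3, w4⟩ := cpl d b
  rw [c] at w4
  obtain rfl : k' = k := by have : ∑ j, m j + k' = n := by exact_mod_cast w4
                            omega
  exact ⟨W, w1, fun j => by rw [← a j, conjTranspose_mul, d, Matrix.mul_assoc, w2, Matrix.mul_zero], w3⟩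

theorem clsU : Cls AU where
  iso h := h
  mul := fun {n m k W V} h h' => by
    change _ = _
    rw [conjTranspose_mul, Matrix.mul_assoc, ← Matrix.mul_assoc Wᴴ, show Wᴴ * W = 1 from h, Matrix.one_mul]; exact h'
  inj f h := by ext i j; simp [E_H_mul, h.eq_iff, one_apply]
  glue Y Y' h h' := by
    obtain ⟨W, -, -, e⟩ := cplU (k := 0) h.al h.orth (by simp [h.sz])
    rw [show W * Wᴴ = 0 by ext; simp [mul_apply], add_zero] at e
    change _ = _
    rw [conjTranspose_sum, Matrix.sum_mul, ← e]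
    refine sum_congr rfl fun i _ => ?_
    rw [Matrix.mul_sum, sum_eq_single i (fun j _ ne => by
      rw [conjTranspose_mul, Matrix.mul_assoc, ← Matrix.mul_assoc (Y' i)ᴴ, h'.orth i j ne.symm]; simp) (by simp),
      conjTranspose_mul, Matrix.mul_assoc, ← Matrix.mul_assoc (Y' i)ᴴ, show (Y' i)ᴴ * Y' i = 1 from h'.al i]
    simp
  compl Y h1 h2 h3 := (cplU h1 h2 h3).imp fun W h => ⟨h.1, h.2.1⟩
  cmp := fun {n m} W u (w : _ = _) (hu : _ = _) => by
    have r : Rep AU fun _ : Unit => (1 : M m m) := ⟨fun _ => by simp [AU], by simp⟩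
    obtain ⟨U, u1, -, p⟩ := polg m _ _ r r (fun _ => rfl) (Wᴴ * u * W) (by simp)
    refine ⟨U, u1, ?_⟩
    have w' : ∀ X : M m m, Wᴴ * (W * X) = X := fun X => by rw [← Matrix.mul_assoc, w, Matrix.one_mul]
    have w'' : ∀ X : M m n, Wᴴ * (W * X) = X := fun X => by rw [← Matrix.mul_assoc, w, Matrix.one_mul]
    have uw : (u * W)ᴴ * (u * W) = 1 := by
      rw [conjTranspose_mul, Matrix.mul_assoc, ← Matrix.mul_assoc uᴴ, hu, Matrix.one_mul, w]
    have b := nn_r uw (1 - W * Wᴴ)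
    have b' := nn_proj (P := 1 - W * Wᴴ) (by simp) (by simp [mul_sub, sub_mul, Matrix.mul_assoc, w'']) (1 : M n n)
    rw [Matrix.one_mul] at b'
    simp [trace_mul_comm W, w] at b'
    have a := pol2 u1 p
    have c := nn_r uw ((1 - W * Wᴴ) * (u * W))ᴴ
    rw [nn_H, ← nn_H, conjTranspose_mul, conjTranspose_conjTranspose] at c
    rw [show 1 - (Wᴴ * u * W)ᴴ * (Wᴴ * u * W) = (u * W)ᴴ * ((1 - W * Wᴴ) * (u * W)) by
      rw [Matrix.sub_mul, Matrix.mul_sub, Matrix.one_mul, uw]; simp [Matrix.mul_assoc]] at a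
    have d := nn_add (W * (Wᴴ * u * W - U)) ((1 - W * Wᴴ) * (u * W))
    rw [nn_l w, show W * (Wᴴ * u * W - U) + (1 - W * Wᴴ) * (u * W) = u * W - W * U by
      simp [Matrix.mul_sub, Matrix.sub_mul, Matrix.mul_assoc]] at d
    linarith

variable [Fintype H]

noncomputable def pr (α : H → M n n) (d : H × AddChar (ZMod (Fintype.card H)) ℂ) : M n n :=
  (Fintype.card H : ℂ)⁻¹ • ∑ k : ZMod (Fintype.card H), d.2 (-k) • α (d.1 ^ k.val)

noncomputable def vU ⦃n : ℕ⦄ (α : H → M n n) (d : H × AddChar (ZMod (Fintype.card H)) ℂ) : ℤ := round (trace (pr α d)).re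

theorem vU_eq {α : H → M n n} (h : Rep AU α) (d) : (vU α d : ℂ) = trace (pr α d) := by
  have N0 : (Fintype.card H : ℂ) ≠ 0 := by simp
  have : pr α d * pr α d = pr α d := by
    rw [pr, Matrix.smul_mul, Matrix.mul_smul, Matrix.sum_mul, sum_congr rfl (g := fun _ => ∑ k : ZMod (Fintype.card H),
      d.2 (-k) • α (d.1 ^ k.val)) fun k _ => ?_, sum_const, card_univ, ZMod.card, ← Nat.cast_smul_eq_nsmul ℂ, inv_smul_smul₀ N0]
    rw [Matrix.mul_sum]
    refine sum_equiv (Equiv.addLeft k) (by simp) fun l _ => ?_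
    rw [Matrix.smul_mul, Matrix.mul_smul, smul_smul, ← AddChar.map_add_eq_mul, ← h.mul, ← pow_add, Equiv.coe_addLeft,
      ZMod.val_add, pow_mod_card, neg_add]
  have i : IsIdempotentElem (toLin' (pr α d)) := by rw [IsIdempotentElem, Module.End.mul_eq_comp, ← toLin'_mul, this]
  have := (LinearMap.IsIdempotentElem.isProj_range _ i).trace
  rw [trace_toLin'_eq] at this
  rw [vU, this]; simp

theorem tr_pr (α : H → M n n) (a : H) : trace (α a) = ∑ ψ : AddChar (ZMod (Fintype.card H)) ℂ, ψ 1 * trace (pr α (a, ψ)) := by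
  have N0 : (Fintype.card H : ℂ) ≠ 0 := by simp
  simp only [pr, trace_smul, trace_sum, smul_eq_mul, mul_sum]
  rw [sum_comm, sum_congr rfl (g := fun k => if k = 1 then trace (α (a ^ k.val)) else 0) fun k _ => ?_]
  · simp [ZMod.val_one_eq_one_mod]
  · rw [sum_congr rfl (g := fun ψ : AddChar _ ℂ => ψ (1 - k) * ((Fintype.card H : ℂ)⁻¹ * trace (α (a ^ k.val)))) fun ψ _ => by
      rw [sub_eq_add_neg, AddChar.map_add_eq_mul]; ring, ← sum_mul, AddChar.sum_apply_eq_ite]
    simp only [sub_eq_zero, eq_comm (a := k), ZMod.card]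
    split_ifs <;> simp [N0]

theorem tr_sq (X : M n n) : (trace X).re ^ 2 ≤ n * nn X := by
  rw [trace, Complex.re_sum, nn_eq]
  refine sq_sum_le_card_mul_sum_sq.trans ?_
  rw [card_univ, Fintype.card_fin]
  refine mul_le_mul_of_nonneg_left (sum_le_sum fun j _ => le_trans ?_ (single_le_sum (f := fun i => Complex.normSq (X i j))
    (fun _ _ => Complex.normSq_nonneg _) (mem_univ j))) (Nat.cast_nonneg n)
  simp only [Matrix.diag, Complex.normSq_apply]
  nlinarith [mul_self_nonneg (X j j).im]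

theorem invU : InvAx AU (vU (H := H)) where
  add Y α β hd h1 h2 h3 := by
    ext d
    refine Int.cast_injective (α := ℂ) ?_
    rw [Finset.sum_apply, Int.cast_sum, vU_eq h1, sum_congr rfl fun j _ => vU_eq (h2 j) d, ← Matrix.mul_one (pr α d),
      ← hd.one clsU, Matrix.mul_sum, trace_sum]
    refine sum_congr rfl fun j _ => ?_
    have : pr α d * Y j = Y j * pr (β j) d := by simp [pr, Matrix.sum_mul, Matrix.mul_sum, h3]
    rw [← Matrix.mul_assoc, this, trace_mul_comm, ← Matrix.mul_assoc, show (Y j)ᴴ * Y j = 1 from hd.al j, Matrix.one_mul]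
  lip := ⟨2 ^ Fintype.card H * Fintype.card H, by have := Fintype.card_pos (α := H); positivity, fun n α β h1 h2 d => by
    have a := congrArg Complex.re (vU_eq h1 d)
    have b := congrArg Complex.re (vU_eq h2 d)
    rw [Complex.intCast_re] at a b
    rw [a, b, ← Complex.sub_re, ← trace_sub, mul_comm _ (n : ℝ), mul_assoc]
    refine (tr_sq _).trans (mul_le_mul_of_nonneg_left ?_ (Nat.cast_nonneg n))
    rw [pr, pr, ← smul_sub, ← sum_sub_distrib, nn_smul]
    refine (mul_le_of_le_one_left (nn_nonneg _) ?_).trans ((nn_sum _ _).trans ?_)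
    · have : (1 : ℝ) ≤ Fintype.card H := by exact_mod_cast Fintype.card_pos
      simp only [map_inv₀, Complex.normSq_natCast]
      exact inv_le_one_of_one_le₀ (one_le_mul_of_one_le_of_one_le this this)
    · rw [card_univ, ZMod.card, mul_assoc]
      refine mul_le_mul_of_nonneg_left ((sum_le_card_nsmul _ _ (∑ h, nn (α h - β h)) fun k _ => ?_).trans_eq (by simp)) (by positivity)
      rw [← smul_sub, nn_smul, Complex.normSq_eq_norm_sq, AddChar.norm_apply, one_pow, one_mul]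
      exact single_le_sum (f := fun h => nn (α h - β h)) (fun _ _ => nn_nonneg _) (mem_univ _)⟩
  rig := ⟨4 * 2 ^ Fintype.card H, by positivity, fun n α β h1 h2 e η η0 => by
    have N0 : (Fintype.card H : ℂ) ≠ 0 := by simp
    obtain ⟨U, u1, u2, p⟩ := polg n α β h1 h2 (fun a => by
      rw [tr_pr, tr_pr β]; exact sum_congr rfl fun ψ _ => by rw [← vU_eq h1, ← vU_eq h2, e])
      ((Fintype.card H : ℂ)⁻¹ • ∑ h, β h * 1 * (α h)ᴴ) fun a => by rw [Matrix.mul_smul, Matrix.smul_mul, avg h1 h2]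
    refine ⟨U, u1, u2, ?_⟩
    have a := pol1 u1 p
    have b : nn ((Fintype.card H : ℂ)⁻¹ • ∑ h, β h * 1 * (α h)ᴴ - 1) ≤ 2 ^ Fintype.card H * ∑ h, nn (α h - β h) := by
      rw [show (Fintype.card H : ℂ)⁻¹ • ∑ h, β h * 1 * (α h)ᴴ - 1 = (Fintype.card H : ℂ)⁻¹ • ∑ h, (β h - α h) * (α h)ᴴ by
        simp [Matrix.sub_mul, clsU.iso' (h1.al _), smul_sub, ← Nat.cast_smul_eq_nsmul ℂ, N0], nn_smul]
      refine (mul_le_of_le_one_left (nn_nonneg _) ?_).trans ((nn_sum _ _).trans ?_)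
      · have : (1 : ℝ) ≤ Fintype.card H := by exact_mod_cast Fintype.card_pos
        simp only [map_inv₀, Complex.normSq_natCast]
        exact inv_le_one_of_one_le₀ (one_le_mul_of_one_le_of_one_le this this)
      · exact mul_le_mul_of_nonneg_left (sum_le_sum fun h _ => (nn_r (clsU.adj (h1.al h)) _).trans_eq (nn_comm _ _))
          (by positivity)
    have c := nn_tri U ((Fintype.card H : ℂ)⁻¹ • ∑ h, β h * 1 * (α h)ᴴ) 1
    rw [nn_comm] at a
    linarith⟩

end Pool.Agent.H.MP_098da0_al
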