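import Pool.Agent.H.MP_098da0_al.V

open Matrix Finset Polynomial
open scoped Classical Pointwise ComplexOrder

namespace Pool.Agent.H.MP_098da0_al

variable {n m : ℕ} {G H : Type} [Group G] [Group H]

theorem dietz (C : Finset G) (h2 : ∀ g, ∀ c ∈ C, g * c * g⁻¹ ∈ C) {N : ℕ} (N0 : 0 < N) (h3 : ∀ c ∈ C, c ^ N = 1) :
    Finite (Submonoid.closure (C : Set G)) := by
  have mv : ∀ (c : G) (l : List G), (∀ x ∈ l, x ∈ C) → ∃ t : List G, (∀ x ∈ t, x ∈ C) ∧ t.length + l.count c = l.length ∧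
      l.prod = c ^ l.count c * t.prod := fun c l => by
    induction l with
    | nil => exact fun _ => ⟨[], by simp, by simp, by simp⟩
    | cons x l ih =>
      intro h
      obtain ⟨t, t1, t2, t3⟩ := ih fun y hy => h y (List.mem_cons_of_mem _ hy)
      by_cases e : x = c
      · subst e; exact ⟨t, t1, by simp; omega, by simp [t3, pow_succ', mul_assoc]⟩
      · refine ⟨((c ^ l.count c)⁻¹ * x * (c ^ l.count c)⁻¹⁻¹) :: t, List.forall_mem_cons.2 ⟨h2 _ _ (h x List.mem_cons_self), t1⟩,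
          by simp [e]; omega, by simp [e, t3, mul_assoc]⟩
  have sh : ∀ k (l : List G), l.length = k → (∀ x ∈ l, x ∈ C) → ∃ t : List G, (∀ x ∈ t, x ∈ C) ∧ t.length ≤ #C * N ∧
      l.prod = t.prod := fun k => by
    induction k using Nat.strong_induction_on with | _ k ih => ?_
    rintro l rfl h
    by_cases e : ∀ c ∈ C, l.count c ≤ N
    · refine ⟨l, h, ?_, rfl⟩
      rw [← l.sum_toFinset_count_eq_length]
      exact (sum_le_card_nsmul _ _ N fun c hc => e c (h c (List.mem_toFinset.1 hc))).trans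
        (Nat.mul_le_mul_right _ (card_le_card fun c hc => h c (List.mem_toFinset.1 hc)))
    · push Not at e
      obtain ⟨c, c1, c2⟩ := e
      obtain ⟨t, t1, t2, t3⟩ := mv c l h
      obtain ⟨j, hj⟩ := Nat.exists_eq_add_of_le c2.le
      obtain ⟨s, s1, s2, s3⟩ := ih _ (by simp; omega) (List.replicate j c ++ t) rfl fun x hx =>
        (List.mem_append.1 hx).elim (fun a => List.eq_of_mem_replicate a ▸ c1) (t1 x)
      exact ⟨s, s1, s2, by rw [← s3, t3, hj, pow_add, h3 c c1]; simp⟩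
  have pw : ∀ l : List G, (∀ x ∈ l, x ∈ C) → l.prod ∈ C ^ l.length := fun l => by
    induction l with
    | nil => simp
    | cons x l ih =>
      intro h
      rw [List.prod_cons, List.length_cons, pow_succ']
      exact mul_mem_mul (h x List.mem_cons_self) (ih fun y hy => h y (List.mem_cons_of_mem _ hy))
  refine ((range (#C * N + 1)).biUnion (C ^ ·)).finite_toSet.subset fun x hx => ?_
  obtain ⟨l, l1, rfl⟩ := Submonoid.exists_list_of_mem_closure hx
  obtain ⟨t, t1, t2, t3⟩ := sh _ l rfl l1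
  exact mem_biUnion.2 ⟨_, mem_range.2 (Nat.lt_succ_of_le t2), t3 ▸ pw t t1⟩

theorem alg (C : Finset G) [Finite (Submonoid.closure (C : Set G))] (S : Finset G) (h : S ⊆ C) :
    ∃ p : ℂ[X], p.Monic ∧ ∀ n (ρ : G → M n n), Rep AU ρ → aeval (∑ c ∈ S, ρ c) p = 0 := by
  obtain ⟨p, p1, p2⟩ := Algebra.IsIntegral.isIntegral (R := ℂ)
    (∑ c : S, MonoidAlgebra.of ℂ (Submonoid.closure (C : Set G)) ⟨c, Submonoid.subset_closure (h c.2)⟩)
  refine ⟨p, p1, fun n ρ r => ?_⟩
  have := congrArg (MonoidAlgebra.lift ℂ (M n n) (Submonoid.closure (C : Set G)) ⟨⟨fun s => ρ s, r.oneU⟩, fun a b => r.mul a b⟩) p2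
  rw [← aeval_def, ← aeval_algHom_apply, map_sum, map_zero] at this
  simpa [sum_attach S ρ] using this

theorem nil {X : M n n} (h : Commute X Xᴴ) (k : ℕ) (e : X ^ k = 0) : X = 0 := by
  have sq : ∀ {X : M n n}, Commute X Xᴴ → X * X = 0 → X = 0 := fun {X} h e =>
    conjTranspose_mul_self_eq_zero.1 (conjTranspose_mul_self_eq_zero.1 (by
      rw [conjTranspose_mul, conjTranspose_conjTranspose, mul_assoc, ← mul_assoc X, h.eq, mul_assoc, e]; simp))
  induction k with
  | zero => rw [← mul_one X, ← pow_zero X, e, mul_zero]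
  | succ k ih =>
    cases k with
    | zero => simpa using e
    | succ k => exact ih (sq (by rw [conjTranspose_pow]; exact h.pow_pow _ _) (by
        rw [← pow_add, show k + 1 + (k + 1) = k + 1 + 1 + k by omega, pow_add, e, zero_mul]))

theorem herm {P : M n n} (h : Commute P Pᴴ) (e : P * P = P) : Pᴴ = P := by
  have : Pᴴ * (1 - P) = 0 := conjTranspose_mul_self_eq_zero.1 (by
    rw [conjTranspose_mul, conjTranspose_conjTranspose, mul_assoc, ← mul_assoc P, h.eq, mul_assoc, mul_sub, e]; simp)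
  rw [mul_sub, mul_one, sub_eq_zero] at this
  have a := congrArg conjTranspose this
  rw [conjTranspose_mul, conjTranspose_conjTranspose] at a
  rw [this, ← a]

omit [Group H] in
theorem lag [Fintype H] {R : Type} [CommRing R] [Algebra ℂ R] (L : Finset ℂ) (hL : L.Nonempty) (z : H → R)
    (q0 : ∀ h, aeval (z h) (Lagrange.nodal L id) = 0) : ∃ P : (H → L) → R, ∑ τ, P τ = 1 ∧
      (∀ τ h, z h * P τ = (τ h : ℂ) • P τ) ∧ (∀ τ τ', τ ≠ τ' → P τ * P τ' = 0) ∧ ∀ τ, P τ * P τ = P τ := by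
  let P (τ : H → L) := ∏ h, aeval (z h) (Lagrange.basis L id (τ h))
  have s1 : ∑ τ, P τ = 1 := by
    rw [← Fintype.piFinset_univ, ← prod_univ_sum (fun _ => univ) fun h (a : L) => aeval (z h) (Lagrange.basis L id a)]
    refine prod_eq_one fun h _ => ?_
    rw [← map_sum, sum_coe_sort L, Lagrange.sum_basis (Set.injOn_id _) hL, map_one]
  have s2 : ∀ τ h, z h * P τ = (τ h : ℂ) • P τ := fun τ h => by
    obtain ⟨y, hy⟩ : aeval (z h) (Lagrange.basis L id (τ h)) ∣ P τ := dvd_prod_of_mem _ (mem_univ h)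
    have := q0 h
    rw [Lagrange.nodal_eq_mul_nodal_erase (τ h).2, Lagrange.nodal_erase_eq_nodal_div (τ h).2] at this
    rw [hy, Lagrange.basis_eq_prod_sub_inv_mul_nodal_div (τ h).2, Algebra.smul_def]
    simp only [map_mul, map_sub, aeval_X, aeval_C, id] at this ⊢
    linear_combination (algebraMap ℂ _ (Lagrange.nodalWeight L id (τ h)) * y) * this
  have s3 : ∀ τ τ', τ ≠ τ' → P τ * P τ' = 0 := fun τ τ' ne => by
    obtain ⟨h, e⟩ := Function.ne_iff.1 ne
    refine (smul_eq_zero_iff_right (sub_ne_zero.2 (Subtype.val_injective.ne e))).1 ?_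
    rw [sub_smul, ← smul_mul_assoc, ← mul_smul_comm, ← s2, ← s2]; ring
  refine ⟨P, s1, s2, s3, fun τ => ?_⟩
  rw [← sum_eq_single τ (f := fun τ' => P τ * P τ') (s := univ) (fun τ' _ ne => s3 _ _ ne.symm) (by simp),
    ← mul_sum, s1, mul_one]

theorem typU [Fintype H] (f : H →* G) (C : Finset G) (h1 : ∀ h, f h ∈ C) (h2 : ∀ g, ∀ c ∈ C, g * c * g⁻¹ ∈ C) {N : ℕ} (N0 : 0 < N)
    (h3 : ∀ c ∈ C, c ^ N = 1) :
    ∃ (T : Type) (_ : Fintype T) (Pure : T → ∀ ⦃n⦄, (G → M n n) → Prop), TypAx AU f vU Pure := by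
  have := dietz C h2 N0 h3
  let cl (h : H) : Finset G := C.filter fun c => IsConj (f h) c
  choose p p1 p2 using fun h => alg C (cl h) (filter_subset _ _)
  let L : Finset ℂ := insert 0 (univ.biUnion fun h => (p h).roots.toFinset)
  have q : ∀ h, p h ∣ Lagrange.nodal L id ^ (p h).roots.card := fun h => by
    conv_lhs => rw [(IsAlgClosed.splits (p h)).eq_prod_roots_of_monic (p1 h)]
    rw [← Multiset.prod_replicate, ← Multiset.map_const']
    exact Multiset.prod_dvd_prod_of_dvd _ _ fun a ha => Lagrange.X_sub_C_dvd_nodal id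
      (mem_insert_of_mem (mem_biUnion.2 ⟨h, mem_univ _, Multiset.mem_toFinset.2 ha⟩))
  refine ⟨H → L, inferInstance, fun τ n ρ => ∀ h, ∑ c ∈ cl h, ρ c = (τ h : ℂ) • 1, fun n ρ r => ?_,
    ⟨C, (1 + ∑ a ∈ L, ∑ b ∈ L, (Complex.normSq (a - b))⁻¹) * 2 ^ #C, ?_, fun τ τ' ne n m ρ σ W r1 r2 p1 p2 w => ?_⟩,
    fun τ n m ρ σ r1 r2 p1 p2 d => ?_⟩
  · let B := Subalgebra.centralizer ℂ (Set.range ρ)
    let φ : Subalgebra.center ℂ B →ₐ[ℂ] M n n := B.val.comp (Subalgebra.center ℂ B).val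
    have inj : Function.Injective φ := Subtype.val_injective.comp Subtype.val_injective
    have c1 : ∀ x a, ρ a * φ x = φ x * ρ a := fun x a => (Subalgebra.mem_centralizer_iff ℂ).1 x.1.2 _ ⟨a, rfl⟩
    have c2 : ∀ x, Commute (φ x) (φ x)ᴴ := fun x => (congrArg Subtype.val (Subalgebra.mem_center_iff.1 x.2
      ⟨(φ x)ᴴ, (Subalgebra.mem_centralizer_iff ℂ).2 (by
        rintro _ ⟨a, rfl⟩
        simpa [r.invU] using (congrArg conjTranspose (c1 x a⁻¹)).symm)⟩)).symm
    have : ∀ h, ∃ z, φ z = ∑ c ∈ cl h, ρ c := fun h => ⟨⟨⟨∑ c ∈ cl h, ρ c, (Subalgebra.mem_centralizer_iff ℂ).2 (by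
        rintro _ ⟨a, rfl⟩
        rw [mul_sum, sum_mul]
        refine sum_equiv (MulAut.conj a).toEquiv (fun c => ?_) fun c _ => by simp [← r.mul]
        simp only [cl, mem_filter, MulEquiv.toEquiv_eq_coe, MulEquiv.coe_toEquiv, MulAut.conj_apply]
        exact ⟨fun ⟨x, y⟩ => ⟨h2 _ _ x, y.trans (isConj_iff.2 ⟨a, rfl⟩)⟩,
          fun ⟨x, y⟩ => ⟨by simpa [mul_assoc] using h2 a⁻¹ _ x, y.trans (isConj_iff.2 ⟨a, rfl⟩).symm⟩⟩)⟩,
      Subalgebra.mem_center_iff.2 fun b => Subtype.ext (by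
        change b.1 * _ = _ * b.1
        rw [mul_sum, sum_mul]
        exact sum_congr rfl fun c _ => ((Subalgebra.mem_centralizer_iff ℂ).1 b.2 _ ⟨c, rfl⟩).symm)⟩, rfl⟩
    choose z hz using this
    have q0 : ∀ h, aeval (z h) (Lagrange.nodal L id) = 0 := fun h => inj (by
      rw [map_zero]
      refine nil (c2 _) (p h).roots.card ?_
      obtain ⟨s, hs⟩ := q h
      rw [← aeval_algHom_apply, ← map_pow, hs, map_mul, hz, p2 h n ρ r, zero_mul])
    obtain ⟨P, s1, s2, s3, s0⟩ := lag L (insert_nonempty _ _) z q0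
    have s4 : ∀ τ, φ (P τ) * φ (P τ) = φ (P τ) := fun τ => by rw [← map_mul, s0]
    have s5 := fun τ => herm (c2 _) (s4 τ)
    choose m Y y1 y2 y3 y4 using fun τ => cpl (P := 1 - φ (P τ)) (by simp [s5]) (by simp [mul_sub, sub_mul, s4])
    have y5 : ∀ τ, φ (P τ) * Y τ = Y τ := fun τ => by
      have := y2 τ; rwa [Matrix.sub_mul, Matrix.one_mul, sub_eq_zero, eq_comm] at this
    have y6 : ∀ τ, Y τ * (Y τ)ᴴ = φ (P τ) := fun τ => by linear_combination (norm := noncomm_ring) y3 τ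
    have R := fun τ => res r (y1 τ) fun a => by rw [y6, c1]
    refine ⟨m, Y, _, ⟨y1, fun i j ne => ?_, ?_⟩, fun τ => ⟨(R τ).1, fun h => ?_, (R τ).2⟩⟩
    · rw [← y5 i, ← y5 j, conjTranspose_mul, s5, Matrix.mul_assoc, ← Matrix.mul_assoc (φ _), ← map_mul, s3 i j ne]; simp
    · have := congrArg (fun x => trace (φ x)) s1
      simp only [map_sum, trace_sum, ← y6, trace_mul_comm (Y _), y1, map_one, trace_one, Fintype.card_fin] at this
      exact_mod_cast this
    · rw [← Matrix.sum_mul, ← Matrix.mul_sum, ← hz, Matrix.mul_assoc, ← y5, ← Matrix.mul_assoc (φ _), ← map_mul, s2, map_smul,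
        Matrix.smul_mul, y5, Matrix.mul_smul, y1]
  · have : 0 ≤ ∑ a ∈ L, ∑ b ∈ L, (Complex.normSq (a - b))⁻¹ :=
      sum_nonneg fun _ _ => sum_nonneg fun _ _ => inv_nonneg.2 (Complex.normSq_nonneg _)
    positivity
  · obtain ⟨h, e⟩ := Function.ne_iff.1 ne
    have g := Complex.normSq_pos.2 (sub_ne_zero.2 (Subtype.val_injective.ne e))
    have a := nn_sum (cl h) fun c => ρ c * W - W * σ c
    rw [sum_sub_distrib, ← Matrix.sum_mul, ← Matrix.mul_sum, p1, p2, Matrix.smul_mul, Matrix.mul_smul, Matrix.one_mul,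
      Matrix.mul_one, ← sub_smul, nn_smul, nn_iso w, ← le_inv_mul_iff₀ g] at a
    rw [mul_assoc]
    refine a.trans (mul_le_mul (le_add_of_nonneg_of_le one_pos.le ?_) (mul_le_mul (pow_le_pow_right₀ one_le_two
      (card_filter_le _ _)) (sum_le_sum_of_subset_of_nonneg (filter_subset _ _) fun _ _ _ => nn_nonneg _)
      (sum_nonneg fun _ _ => nn_nonneg _) (by positivity)) (mul_nonneg (by positivity) (sum_nonneg fun _ _ => nn_nonneg _)) ?_)
    · exact (single_le_sum (f := fun b => (Complex.normSq (τ h - b))⁻¹) (fun _ _ => inv_nonneg.2 (Complex.normSq_nonneg _))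
        (τ' h).2).trans (single_le_sum (f := fun a => ∑ b ∈ L, (Complex.normSq (a - b))⁻¹)
          (fun _ _ => sum_nonneg fun _ _ => inv_nonneg.2 (Complex.normSq_nonneg _)) (τ h).2)
    · exact add_nonneg one_pos.le (sum_nonneg fun _ _ => sum_nonneg fun _ _ => inv_nonneg.2 (Complex.normSq_nonneg _))
  · have k : ∀ {n} {ρ : G → M n n}, Rep AU ρ → (∀ h, ∑ c ∈ cl h, ρ c = (τ h : ℂ) • 1) →
        ∀ h, #(cl h) * trace (ρ (f h)) = τ h * n := fun {n ρ} r p h => by
      have := congrArg trace (p h)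
      rw [trace_sum, sum_congr rfl (g := fun _ => trace (ρ (f h))) fun c hc => by
        obtain ⟨g, rfl⟩ := isConj_iff.1 (mem_filter.1 hc).2
        rw [r.mul, trace_mul_comm, ← r.mul]; simp] at this
      simpa using this
    have e : ∀ h, m * trace (ρ (f h)) = n * trace (σ (f h)) := fun h =>
      mul_left_cancel₀ (a := (#(cl h) : ℂ)) (Nat.cast_ne_zero.2 (card_ne_zero.2 ⟨f h, mem_filter.2 ⟨h1 h, .refl _⟩⟩)) (by
        linear_combination m * k r1 p1 h - n * k r2 p2 h)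
    refine Int.cast_injective (α := ℂ) ?_
    push_cast
    rw [vU_eq (r1.comp f), vU_eq (r2.comp f)]
    simp only [pr, trace_smul, trace_sum, smul_eq_mul, mul_sum, Function.comp]
    exact sum_congr rfl fun j _ => by linear_combination ((Fintype.card H : ℂ)⁻¹ * d.2 (-j)) * e _

end Pool.Agent.H.MP_098da0_al
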