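import Pool.Agent.H.MP_098da0_al.D
import Pool.Agent.H.MP_098da0_al.Q
import Pool.Agent.H.MP_098da0_al.W

open Matrix Finset Filter Topology
open scoped Classical

namespace Pool.Agent.H.MP_098da0_al

def St' (C : ℕ → Type) [∀ k, Group (C k)] (d : ∀ k, C k → C k → ℝ) (G : Type) [Group G] : Prop :=
  ∀ (k : ℕ → ℕ), (∀ i, 0 < k i) → ∀ φ : ∀ i, G → C (k i),
    (∀ a b, Tendsto (fun i => d (k i) (φ i a * φ i b) (φ i (a * b))) atTop (𝓝 0)) →
    ∃ ψ : ∀ i, G →* C (k i), ∀ a, Tendsto (fun i => d (k i) (φ i a) (ψ i a)) atTop (𝓝 0)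

theorem tr {A : Pr} (c : Cls A) {C : ℕ → Type} [∀ k, Group (C k)] {d : ∀ k, C k → C k → ℝ} (e : ∀ k, C k →* M k k)
    (e1 : ∀ k, Function.Injective (e k)) (e2 : ∀ k W, A W ↔ ∃ x, e k x = W) (g g' : ℝ → ℝ) (g1 : Tendsto g (𝓝 0) (𝓝 0))
    (g2 : Tendsto g' (𝓝 0) (𝓝 0)) (h1 : ∀ k x y, nn (e k x - e k y) / k = g (d k x y))
    (h2 : ∀ k x y, d k x y = g' (nn (e k x - e k y) / k)) (G : Type) [Group G] : St' C d G ↔ St A G := by
  constructor
  · intro h k φ p1 p2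
    let P (i : ℕ) : Σ n, G → M n n := if k i = 0 then ⟨1, fun _ => 1⟩ else ⟨k i, φ i⟩
    have a : ∀ i, 0 < (P i).1 ∧ (∀ a, A ((P i).2 a)) ∧ (∀ a b, nn ((P i).2 a * (P i).2 b - (P i).2 (a * b)) / (P i).1 =
        nn (φ i a * φ i b - φ i (a * b)) / k i) ∧ ∀ ψ' : G → M (P i).1 (P i).1, Rep A ψ' → ∃ ψ : G → M (k i) (k i), Rep A ψ ∧
          ∀ a, nn (φ i a - ψ a) / k i ≤ nn ((P i).2 a - ψ' a) / (P i).1 := fun i => by
      by_cases z : k i = 0
      · rw [show P i = ⟨1, fun _ => 1⟩ from if_pos z]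
        exact ⟨one_pos, fun _ => c.one, fun a b => by rw [nn_empty (φ i a * φ i b - _) z]; simp [nn], fun ψ' _ => ⟨_, c.triv, fun a => by
          rw [nn_empty _ z, zero_div]; exact div_nonneg (nn_nonneg _) (Nat.cast_nonneg _)⟩⟩
      · rw [show P i = ⟨k i, φ i⟩ from if_neg z]
        exact ⟨Nat.pos_of_ne_zero z, p1 i, fun _ _ => rfl, fun ψ' h => ⟨ψ', h, fun _ => le_rfl⟩⟩
    choose x hx using fun i b => (e2 _ _).1 ((a i).2.1 b)
    obtain ⟨ψ, q⟩ := h _ (fun i => (a i).1) x fun u v => by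
      simp only [h2, map_mul, hx, (a _).2.2.1]; exact g2.comp (p2 u v)
    choose ψ' r1 r2 using fun i => (a i).2.2.2 (fun u => e _ (ψ i u)) ⟨fun u => (e2 _ _).2 ⟨_, rfl⟩, fun u v => by simp⟩
    refine ⟨ψ', r1, fun u => squeeze_zero (fun i => div_nonneg (nn_nonneg _) (Nat.cast_nonneg _)) (fun i => r2 i u) ?_⟩
    simp only [← hx, h1]; exact g1.comp (q u)
  · intro h k _ φ p
    obtain ⟨ψ, q1, q2⟩ := h k (fun i a => e _ (φ i a)) (fun i a => (e2 _ _).2 ⟨_, rfl⟩) fun u v => by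
      simp only [← map_mul, h1]; exact g1.comp (p u v)
    choose x hx using fun i b => (e2 _ _).1 ((q1 i).al b)
    refine ⟨fun i => MonoidHom.mk' (x i) fun u v => e1 _ (by rw [map_mul, hx, hx, hx, (q1 i).mul]), fun u => ?_⟩
    simp only [h2, MonoidHom.mk'_apply, hx]; exact g2.comp (q2 u)

theorem trP (G : Type) [Group G] : St' (fun k => Equiv.Perm (Fin k))
    (fun k σ τ => (#(univ.filter fun x => σ x ≠ τ x) : ℝ) / k) G ↔ St AP G := by
  refine tr (C := fun k => Equiv.Perm (Fin k)) clsP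
    (fun k => ⟨⟨fun σ : Equiv.Perm (Fin k) => E σ, E_id⟩, fun σ τ => (E_mul σ τ).symm⟩)
    (fun k σ τ h => DFunLike.coe_injective (E_inj h))
    (fun k W => ⟨fun ⟨f, h, e⟩ => ⟨.ofBijective f (Finite.injective_iff_bijective.1 h), e.symm⟩,
      fun ⟨σ, e⟩ => ⟨σ, σ.injective, e.symm⟩⟩) (2 * ·) (· / 2) ?_ ?_ (fun k σ τ => ?_) (fun k σ τ => ?_) G
  · simpa using (tendsto_id (x := 𝓝 (0 : ℝ))).const_mul 2
  · simpa using (tendsto_id (x := 𝓝 (0 : ℝ))).div_const 2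
  · exact (congrArg (· / (k : ℝ)) (nn_E σ τ)).trans (mul_div_assoc _ _ _)
  · refine Eq.trans ?_ (congrArg (· / (k : ℝ) / 2) (nn_E σ τ)).symm
    beta_reduce; ring

theorem trU (G : Type) [Group G] : St' (fun k => unitaryGroup (Fin k) ℂ)
    (fun k A B => √((trace ((A.1 - B.1)ᴴ * (A.1 - B.1))).re / k)) G ↔ St AU G := by
  refine tr (C := fun k => unitaryGroup (Fin k) ℂ) clsU (fun k => Submonoid.subtype _) (fun k => Subtype.val_injective)
    (fun k W => ⟨fun h => ⟨⟨W, mem_unitaryGroup_iff'.2 h⟩, rfl⟩, fun ⟨x, e⟩ => e ▸ x.2.1⟩) (· ^ 2) Real.sqrt ?_ ?_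
    (fun k x y => ?_) (fun _ _ _ => rfl) G
  · simpa using (tendsto_id (x := 𝓝 (0 : ℝ))).pow 2
  · simpa using Real.continuous_sqrt.tendsto 0
  · exact (Real.sq_sqrt (div_nonneg (nn_nonneg (x.1 - y.1)) (Nat.cast_nonneg _))).symm

theorem conjs {G H : Type} [Group G] [Group H] [Fintype H] (f : H →* G)
    (h : (Set.range fun g : G => f.range.map (MulAut.conj g).toMonoidHom).Finite) :
    ∃ C : Finset G, (∀ h, f h ∈ C) ∧ (∀ g, ∀ c ∈ C, g * c * g⁻¹ ∈ C) ∧ ∀ c ∈ C, c ^ Fintype.card H = 1 := by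
  have : {c | ∃ g h, c = g * f h * g⁻¹}.Finite := by
    refine (h.biUnion (t := fun K => (K : Set G)) ?_).subset ?_
    · rintro _ ⟨g, rfl⟩
      exact (Set.finite_range fun h => g * f h * g⁻¹).subset (by rintro _ ⟨_, ⟨h, rfl⟩, rfl⟩; exact ⟨h, rfl⟩)
    · rintro _ ⟨g, h, rfl⟩
      exact Set.mem_biUnion ⟨g, rfl⟩ ⟨_, ⟨h, rfl⟩, rfl⟩
  refine ⟨this.toFinset, fun h => this.mem_toFinset.2 ⟨1, h, by simp⟩, fun g c hc => ?_, fun c hc => ?_⟩ <;>
    obtain ⟨g', h', rfl⟩ := this.mem_toFinset.1 hc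
  · exact this.mem_toFinset.2 ⟨g * g', h', by group⟩
  · rw [conj_pow, ← map_pow, pow_card_eq_one]; simp

theorem main (H : Type) [Group H] [Finite H] (G : Bool → Type) [∀ b, Group (G b)] (f : ∀ b, H →* G b)
    (fg : ∀ b, Group.FG (G b)) (hn : ∀ b, (Set.range fun g : G b => (f b).range.map (MulAut.conj g).toMonoidHom).Finite) :
    ((∀ b, St AP (G b)) → St AP (Monoid.PushoutI f)) ∧ ((∀ b, St AU (G b)) → St AU (Monoid.PushoutI f)) := by
  cases nonempty_fintype H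
  choose C c1 c2 c3 using fun b => conjs (f b) (hn b)
  choose T i P t using fun b => typP (f b) (C b) (c1 b) (c2 b)
  choose T' i' P' t' using fun b => typU (f b) (C b) (c1 b) (c2 b) Fintype.card_pos (c3 b)
  exact ⟨fun s => amal clsP invP s t fg, fun s => amal clsU invU s t' fg⟩

end Pool.Agent.H.MP_098da0_al
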